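import Mathlib

set_option autoImplicit false
set_option linter.unusedSectionVars false
set_option linter.unusedVariables false
open Classical Finset

namespace Pool.Agent.Helper96

variable {α : Type*} [DecidableEq α]

/-- Expectation of `f` over the random subset of `U` in which each element is present
independently with probability `q`. -/
noncomputable def Ex (U : Finset α) (q : ℝ) (f : Finset α → ℝ) : ℝ :=
  ∑ E ∈ U.powerset, q ^ E.card * (1 - q) ^ (U.card - E.card) * f E

/-- Probability of the event `A` for the random subset of `U`. -/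
noncomputable def Pr (U : Finset α) (q : ℝ) (A : Finset α → Prop) : ℝ :=
  Ex U q (fun E => if A E then 1 else 0)

theorem Ex_empty (q : ℝ) (f : Finset α → ℝ) : Ex ∅ q f = f ∅ := by
  simp [Ex]

theorem Ex_insert {U : Finset α} {a : α} (ha : a ∉ U) (q : ℝ) (f : Finset α → ℝ) :
    Ex (insert a U) q f = (1 - q) * Ex U q f + q * Ex U q (fun E => f (insert a E)) := by
  unfold Ex
  rw [Finset.sum_powerset_insert ha, Finset.mul_sum, Finset.mul_sum]
  congr 1
  · apply Finset.sum_congr rfl
    intro t ht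
    have h1 : t.card ≤ U.card := Finset.card_le_card (Finset.mem_powerset.mp ht)
    rw [Finset.card_insert_of_notMem ha, Nat.succ_sub h1, pow_succ]
    ring
  · apply Finset.sum_congr rfl
    intro t ht
    have hat : a ∉ t := fun h => ha (Finset.mem_powerset.mp ht h)
    rw [Finset.card_insert_of_notMem ha, Finset.card_insert_of_notMem hat, Nat.add_sub_add_right,
      pow_succ]
    ring

theorem Ex_add (U : Finset α) (q : ℝ) (f g : Finset α → ℝ) :
    Ex U q (fun E => f E + g E) = Ex U q f + Ex U q g := by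
  unfold Ex
  rw [← Finset.sum_add_distrib]
  apply Finset.sum_congr rfl
  intro t _
  ring

theorem Ex_sub (U : Finset α) (q : ℝ) (f g : Finset α → ℝ) :
    Ex U q (fun E => f E - g E) = Ex U q f - Ex U q g := by
  unfold Ex
  rw [← Finset.sum_sub_distrib]
  apply Finset.sum_congr rfl
  intro t _
  ring

theorem Ex_const_mul (U : Finset α) (q : ℝ) (c : ℝ) (f : Finset α → ℝ) :
    Ex U q (fun E => c * f E) = c * Ex U q f := by
  unfold Ex
  rw [Finset.mul_sum]
  apply Finset.sum_congr rfl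
  intro t _
  ring

theorem Ex_mul_const (U : Finset α) (q : ℝ) (c : ℝ) (f : Finset α → ℝ) :
    Ex U q (fun E => f E * c) = Ex U q f * c := by
  unfold Ex
  rw [Finset.sum_mul]
  apply Finset.sum_congr rfl
  intro t _
  ring

theorem Ex_one (U : Finset α) (q : ℝ) : Ex U q (fun _ => 1) = 1 := by
  unfold Ex
  simp only [mul_one]
  rw [Finset.sum_pow_mul_eq_add_pow]
  simp

theorem Ex_const (U : Finset α) (q : ℝ) (c : ℝ) : Ex U q (fun _ => c) = c := by
  have := Ex_const_mul U q c (fun _ => (1:ℝ))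
  simp only [mul_one] at this
  rw [this, Ex_one]; ring

theorem Ex_sum {ι : Type*} (s : Finset ι) (U : Finset α) (q : ℝ) (f : ι → Finset α → ℝ) :
    Ex U q (fun E => ∑ i ∈ s, f i E) = ∑ i ∈ s, Ex U q (f i) := by
  unfold Ex
  rw [Finset.sum_comm]
  apply Finset.sum_congr rfl
  intro t _
  rw [Finset.mul_sum]

theorem Ex_congr {U : Finset α} {q : ℝ} {f g : Finset α → ℝ} (h : ∀ E, E ⊆ U → f E = g E) :
    Ex U q f = Ex U q g := by
  unfold Ex
  apply Finset.sum_congr rfl
  intro t ht
  rw [h t (Finset.mem_powerset.mp ht)]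

theorem Ex_mono {U : Finset α} {q : ℝ} (h0 : 0 ≤ q) (h1 : q ≤ 1) {f g : Finset α → ℝ}
    (h : ∀ E, E ⊆ U → f E ≤ g E) : Ex U q f ≤ Ex U q g := by
  unfold Ex
  apply Finset.sum_le_sum
  intro t ht
  apply mul_le_mul_of_nonneg_left (h t (Finset.mem_powerset.mp ht))
  have : 0 ≤ 1 - q := by linarith
  positivity

theorem Ex_nonneg {U : Finset α} {q : ℝ} (h0 : 0 ≤ q) (h1 : q ≤ 1) {f : Finset α → ℝ}
    (h : ∀ E, E ⊆ U → 0 ≤ f E) : 0 ≤ Ex U q f := by
  have := Ex_mono h0 h1 (U := U) (f := fun _ => 0) (g := f) h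
  rwa [Ex_const] at this

/-- Fubini. -/
theorem Ex_union {U₁ U₂ : Finset α} (hd : Disjoint U₁ U₂) (q : ℝ) (f : Finset α → ℝ) :
    Ex (U₁ ∪ U₂) q f = Ex U₁ q (fun E₁ => Ex U₂ q (fun E₂ => f (E₁ ∪ E₂))) := by
  induction U₁ using Finset.induction_on generalizing f with
  | empty => simp [Ex_empty]
  | insert a U ha ih =>
    rw [Finset.disjoint_insert_left] at hd
    have h1 : a ∉ U ∪ U₂ := by
      simp [ha, hd.1]
    rw [Finset.insert_union, Ex_insert h1, Ex_insert ha, ih hd.2, ih hd.2]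
    simp [Finset.insert_union]

theorem Ex_inter {U' U : Finset α} (h : U' ⊆ U) (q : ℝ) (f : Finset α → ℝ) :
    Ex U q (fun E => f (E ∩ U')) = Ex U' q f := by
  have h2 : U = U' ∪ (U \ U') := by
    rw [Finset.union_sdiff_of_subset h]
  conv_lhs => rw [h2]
  rw [Ex_union Finset.disjoint_sdiff]
  apply Ex_congr
  intro E₁ h₁
  have h3 : ∀ E₂, E₂ ⊆ U \ U' → f ((E₁ ∪ E₂) ∩ U') = f E₁ := by
    intro E₂ h₂
    congr 1
    ext x
    simp only [Finset.mem_inter, Finset.mem_union]
    constructor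
    · rintro ⟨hx | hx, hx'⟩
      · exact hx
      · exact absurd hx' (Finset.mem_sdiff.mp (h₂ hx)).2
    · intro hx
      exact ⟨Or.inl hx, h₁ hx⟩
  rw [Ex_congr h3, Ex_const]

/-- marginal, in terms of a function depending only on `E ∩ U'`. -/
theorem Ex_marg {U' U : Finset α} (h : U' ⊆ U) (q : ℝ) (f : Finset α → ℝ)
    (hf : ∀ E, E ⊆ U → f E = f (E ∩ U')) :
    Ex U q f = Ex U' q f := by
  rw [Ex_congr hf, Ex_inter h]

section Pr
variable {q : ℝ} {U : Finset α}

theorem Pr_nonneg (h0 : 0 ≤ q) (h1 : q ≤ 1) (A : Finset α → Prop) : 0 ≤ Pr U q A := by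
  apply Ex_nonneg h0 h1
  intro E _
  split_ifs <;> norm_num

theorem Pr_mono (h0 : 0 ≤ q) (h1 : q ≤ 1) {A B : Finset α → Prop}
    (h : ∀ E, E ⊆ U → A E → B E) : Pr U q A ≤ Pr U q B := by
  apply Ex_mono h0 h1
  intro E hE
  by_cases hA : A E
  · simp [hA, h E hE hA]
  · simp only [hA, if_false]
    split_ifs <;> norm_num

theorem Pr_congr {A B : Finset α → Prop}
    (h : ∀ E, E ⊆ U → (A E ↔ B E)) : Pr U q A = Pr U q B := by
  apply Ex_congr
  intro E hE
  simp [h E hE]

theorem Pr_le_one (h0 : 0 ≤ q) (h1 : q ≤ 1) (A : Finset α → Prop) : Pr U q A ≤ 1 := by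
  have := Ex_mono h0 h1 (U := U) (f := fun E => if A E then (1:ℝ) else 0) (g := fun _ => 1)
    (by intro E _; split_ifs <;> norm_num)
  rwa [Ex_one] at this

theorem Pr_true : Pr U q (fun _ => True) = 1 := by
  simp [Pr, Ex_one]

theorem Pr_false : Pr U q (fun _ => False) = 0 := by
  simp [Pr, Ex_const]

theorem Pr_not (A : Finset α → Prop) : Pr U q (fun E => ¬ A E) = 1 - Pr U q A := by
  unfold Pr
  have h := Ex_sub U q (fun _ => (1:ℝ)) (fun E => if A E then 1 else 0)
  rw [Ex_one] at h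
  rw [← h]
  apply Ex_congr
  intro E _
  by_cases h : A E <;> simp [h]

theorem Pr_or_le (h0 : 0 ≤ q) (h1 : q ≤ 1) (A B : Finset α → Prop) :
    Pr U q (fun E => A E ∨ B E) ≤ Pr U q A + Pr U q B := by
  unfold Pr
  rw [← Ex_add]
  apply Ex_mono h0 h1
  intro E _
  by_cases hA : A E <;> by_cases hB : B E <;> simp [hA, hB]

theorem Pr_exists_le {ι : Type*} (h0 : 0 ≤ q) (h1 : q ≤ 1) (s : Finset ι)
    (A : ι → Finset α → Prop) :
    Pr U q (fun E => ∃ i ∈ s, A i E) ≤ ∑ i ∈ s, Pr U q (A i) := by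
  unfold Pr
  rw [← Ex_sum]
  apply Ex_mono h0 h1
  intro E _
  by_cases h : ∃ i ∈ s, A i E
  · obtain ⟨i, hi, hA⟩ := h
    have h2 : ∀ j ∈ s, (0:ℝ) ≤ if A j E then 1 else 0 := by
      intro j _; split_ifs <;> norm_num
    have h3 := Finset.single_le_sum h2 hi
    simp only [hA, if_true] at h3
    have h4 : ∃ i ∈ s, A i E := ⟨i, hi, hA⟩
    simpa [h4] using h3
  · simp only [h, if_false]
    apply Finset.sum_nonneg
    intro j _; split_ifs <;> norm_num

theorem Pr_marg {U' : Finset α} (h : U' ⊆ U) (A : Finset α → Prop)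
    (hA : ∀ E, E ⊆ U → (A E ↔ A (E ∩ U'))) : Pr U q A = Pr U' q A := by
  unfold Pr
  apply Ex_marg h
  intro E hE
  simp [← hA E hE]

theorem Pr_insert {a : α} (ha : a ∉ U) (A : Finset α → Prop) :
    Pr (insert a U) q A = (1 - q) * Pr U q A + q * Pr U q (fun E => A (insert a E)) := by
  unfold Pr
  rw [Ex_insert ha]

theorem Pr_subset {T : Finset α} (h : T ⊆ U) : Pr U q (fun E => T ⊆ E) = q ^ T.card := by
  induction T using Finset.induction_on generalizing U with
  | empty => simp [Pr_true]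
  | insert a T ha ih =>
    have haU : a ∈ U := h (Finset.mem_insert_self a T)
    have hU : U = insert a (U.erase a) := (Finset.insert_erase haU).symm
    have hna : a ∉ U.erase a := Finset.notMem_erase a U
    have hT : T ⊆ U.erase a := by
      intro x hx
      rw [Finset.mem_erase]
      exact ⟨fun hxa => ha (hxa ▸ hx), h (Finset.mem_insert_of_mem hx)⟩
    rw [hU, Pr_insert hna]
    have e1 : Pr (U.erase a) q (fun E => insert a T ⊆ E) = 0 := by
      rw [Pr_congr (B := fun _ => False), Pr_false]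
      intro E hE
      simp only [iff_false]
      intro h'
      exact hna (hE (h' (Finset.mem_insert_self a T)))
    have e2 : Pr (U.erase a) q (fun E => insert a T ⊆ insert a E) = q ^ T.card := by
      rw [← ih hT]
      apply Pr_congr
      intro E hE
      have haE : a ∉ E := fun h' => hna (hE h')
      constructor
      · intro h' x hx
        have := h' (Finset.mem_insert_of_mem hx)
        rw [Finset.mem_insert] at this
        rcases this with h2 | h2
        · exact absurd (h2 ▸ hx) ha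
        · exact h2
      · intro h'
        exact Finset.insert_subset_insert a h'
    rw [e1, e2, Finset.card_insert_of_notMem ha, pow_succ]
    ring

theorem Pr_disjoint {T : Finset α} (h : T ⊆ U) :
    Pr U q (fun E => Disjoint T E) = (1 - q) ^ T.card := by
  have h1 : Pr U q (fun E => Disjoint T E) = Pr T q (fun E => E = ∅) := by
    rw [Pr_marg h]
    · apply Pr_congr
      intro E hE
      constructor
      · intro hd
        exact Finset.disjoint_self_iff_empty _ |>.mp (Finset.disjoint_of_subset_left hE hd)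
      · rintro rfl
        exact Finset.disjoint_empty_right _
    · intro E _
      simp only [Finset.disjoint_left, Finset.mem_inter, not_and]
      constructor
      · intro h' x hx hxE
        exact absurd hxE (h' hx)
      · intro h' x hx hxE
        exact h' hx hxE hx
  rw [h1]
  unfold Pr Ex
  rw [Finset.sum_eq_single ∅]
  · simp
  · intro b _ hb
    simp [hb]
  · intro h'
    exact absurd (Finset.empty_mem_powerset T) h'

/-- Fubini for probabilities. -/
theorem Pr_union {U₁ U₂ : Finset α} (hd : Disjoint U₁ U₂) (A : Finset α → Prop) :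
    Pr (U₁ ∪ U₂) q A = Ex U₁ q (fun E₁ => Pr U₂ q (fun E₂ => A (E₁ ∪ E₂))) := by
  unfold Pr
  rw [Ex_union hd]

/-- Markov. -/
theorem Pr_markov (h0 : 0 ≤ q) (h1 : q ≤ 1) (f : Finset α → ℝ) (hf : ∀ E, E ⊆ U → 0 ≤ f E)
    {c : ℝ} (hc : 0 < c) :
    Pr U q (fun E => c ≤ f E) ≤ Ex U q f / c := by
  rw [le_div_iff₀ hc]
  unfold Pr
  rw [← Ex_mul_const]
  apply Ex_mono h0 h1
  intro E hE
  by_cases h : c ≤ f E
  · simp [h]
  · simp only [h, if_false, zero_mul]
    exact hf E hE

/-- Product rule for two independent events. -/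
theorem Pr_and_indep {U₁ U₂ : Finset α} (hd : Disjoint U₁ U₂) (hU : U₁ ∪ U₂ ⊆ U)
    (A B : Finset α → Prop)
    (hA : ∀ E, E ⊆ U → (A E ↔ A (E ∩ U₁))) (hB : ∀ E, E ⊆ U → (B E ↔ B (E ∩ U₂))) :
    Pr U q (fun E => A E ∧ B E) = Pr U₁ q A * Pr U₂ q B := by
  have hU1 : U₁ ⊆ U := (Finset.subset_union_left).trans hU
  have hU2 : U₂ ⊆ U := (Finset.subset_union_right).trans hU
  rw [Pr_marg hU]
  · rw [Pr_union hd]
    have : ∀ E₁, E₁ ⊆ U₁ → Pr U₂ q (fun E₂ => A (E₁ ∪ E₂) ∧ B (E₁ ∪ E₂))
        = (if A E₁ then 1 else 0) * Pr U₂ q B := by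
      intro E₁ h₁
      have h2 : Pr U₂ q (fun E₂ => A (E₁ ∪ E₂) ∧ B (E₁ ∪ E₂)) =
          Pr U₂ q (fun E₂ => A E₁ ∧ B E₂) := by
        apply Pr_congr
        intro E₂ h₂
        have hsub : E₁ ∪ E₂ ⊆ U := Finset.union_subset (h₁.trans hU1) (h₂.trans hU2)
        rw [hA _ hsub, hB _ hsub]
        have e1 : (E₁ ∪ E₂) ∩ U₁ = E₁ := by
          ext x
          simp only [Finset.mem_inter, Finset.mem_union]
          constructor
          · rintro ⟨hx | hx, hx'⟩
            · exact hx
            · exact absurd hx' (fun h' => Finset.disjoint_left.mp hd h' (h₂ hx))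
          · intro hx; exact ⟨Or.inl hx, h₁ hx⟩
        have e2 : (E₁ ∪ E₂) ∩ U₂ = E₂ := by
          ext x
          simp only [Finset.mem_inter, Finset.mem_union]
          constructor
          · rintro ⟨hx | hx, hx'⟩
            · exact absurd hx' (fun h' => Finset.disjoint_left.mp hd (h₁ hx) h')
            · exact hx
          · intro hx; exact ⟨Or.inr hx, h₂ hx⟩
        rw [e1, e2]
      rw [h2]
      by_cases hA1 : A E₁
      · simp [hA1]
      · simp [hA1, Pr_false]
    rw [Ex_congr this, Ex_mul_const]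
    rfl
  · intro E hE
    have hsub : E ∩ (U₁ ∪ U₂) ⊆ U := Finset.inter_subset_left.trans hE
    rw [hA E hE, hB E hE, hA _ hsub, hB _ hsub]
    have e1 : E ∩ (U₁ ∪ U₂) ∩ U₁ = E ∩ U₁ := by
      ext x; simp only [Finset.mem_inter, Finset.mem_union]; tauto
    have e2 : E ∩ (U₁ ∪ U₂) ∩ U₂ = E ∩ U₂ := by
      ext x; simp only [Finset.mem_inter, Finset.mem_union]; tauto
    rw [e1, e2]

end Pr

end Pool.Agent.Helper96
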