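import Mathlib
import Pool.Agent.Helper96.Prob

set_option autoImplicit false
set_option linter.unusedSectionVars false
set_option linter.unusedVariables false
open Classical Finset

namespace Pool.Agent.Helper96

variable {α : Type*} [DecidableEq α] {q : ℝ} {U : Finset α}

theorem Pr_forall_indep {ι : Type*} (S : Finset ι) (V : ι → Finset α)
    (hV : ∀ i ∈ S, V i ⊆ U) (hd : ∀ i ∈ S, ∀ j ∈ S, i ≠ j → Disjoint (V i) (V j))
    (A : ι → Finset α → Prop) (hA : ∀ i ∈ S, ∀ E, E ⊆ U → (A i E ↔ A i (E ∩ V i))) :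
    Pr U q (fun E => ∀ i ∈ S, A i E) = ∏ i ∈ S, Pr (V i) q (A i) := by
  induction S using Finset.induction_on with
  | empty => simp [Pr_true]
  | insert a S ha ih =>
    rw [Finset.prod_insert ha]
    have hV' : ∀ i ∈ S, V i ⊆ U := fun i hi => hV i (Finset.mem_insert_of_mem hi)
    have hd' : ∀ i ∈ S, ∀ j ∈ S, i ≠ j → Disjoint (V i) (V j) := fun i hi j hj =>
      hd i (Finset.mem_insert_of_mem hi) j (Finset.mem_insert_of_mem hj)
    have hA' : ∀ i ∈ S, ∀ E, E ⊆ U → (A i E ↔ A i (E ∩ V i)) := fun i hi =>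
      hA i (Finset.mem_insert_of_mem hi)
    have hB : ∀ E, E ⊆ U → ((∀ i ∈ S, A i E) ↔ (∀ i ∈ S, A i (E ∩ S.biUnion V))) := by
      intro E hE
      apply forall₂_congr
      intro i hi
      have hsub : E ∩ S.biUnion V ⊆ U := Finset.inter_subset_left.trans hE
      rw [hA' i hi E hE, hA' i hi _ hsub]
      have : E ∩ S.biUnion V ∩ V i = E ∩ V i := by
        rw [Finset.inter_assoc]
        congr 1
        exact Finset.inter_eq_right.mpr (Finset.subset_biUnion_of_mem V hi)
      rw [this]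
    have hU2 : S.biUnion V ⊆ U := Finset.biUnion_subset.mpr hV'
    have hdd : Disjoint (V a) (S.biUnion V) := by
      rw [Finset.disjoint_biUnion_right]
      intro i hi
      apply hd a (Finset.mem_insert_self a S) i (Finset.mem_insert_of_mem hi)
      rintro rfl
      exact ha hi
    have e1 : Pr U q (fun E => ∀ i ∈ insert a S, A i E)
        = Pr U q (fun E => A a E ∧ ∀ i ∈ S, A i E) := by
      apply Pr_congr
      intro E _
      rw [Finset.forall_mem_insert]
    rw [e1, Pr_and_indep hdd (Finset.union_subset (hV a (Finset.mem_insert_self a S)) hU2) _ _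
      (hA a (Finset.mem_insert_self a S)) hB, ← Pr_marg hU2 _ hB, ih hV' hd' hA']

/-- Probabilities of mutually exclusive events sum to at most one. -/
theorem sum_Pr_le_one {ι : Type*} (h0 : 0 ≤ q) (h1 : q ≤ 1) (s : Finset ι)
    (A : ι → Finset α → Prop)
    (h : ∀ E, E ⊆ U → ∀ i ∈ s, ∀ j ∈ s, A i E → A j E → i = j) :
    ∑ i ∈ s, Pr U q (A i) ≤ 1 := by
  unfold Pr
  rw [← Ex_sum]
  refine (Ex_mono h0 h1 (g := fun _ => 1) ?_).trans (le_of_eq (Ex_one _ _))
  intro E hE
  rw [Finset.sum_ite, Finset.sum_const_zero, add_zero, Finset.sum_const, nsmul_eq_mul, mul_one]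
  norm_cast
  rw [Finset.card_le_one]
  intro i hi j hj
  rw [Finset.mem_filter] at hi hj
  exact h E hE i hi.1 j hj.1 hi.2 hj.2

/-- upper tail via union bound -/
theorem Pr_card_ge (h0 : 0 ≤ q) (h1 : q ≤ 1) {T : Finset α} (hT : T ⊆ U) (t : ℕ) :
    Pr U q (fun E => t ≤ (E ∩ T).card) ≤ (T.card.choose t : ℝ) * q ^ t := by
  have h2 : Pr U q (fun E => t ≤ (E ∩ T).card)
      ≤ Pr U q (fun E => ∃ X ∈ T.powersetCard t, X ⊆ E) := by
    apply Pr_mono h0 h1
    intro E _ ht
    obtain ⟨X, hX, hXc⟩ := Finset.exists_subset_card_eq ht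
    exact ⟨X, Finset.mem_powersetCard.mpr ⟨hX.trans Finset.inter_subset_right, hXc⟩,
      hX.trans Finset.inter_subset_left⟩
  refine h2.trans ((Pr_exists_le h0 h1 _ _).trans ?_)
  have h3 : ∀ X ∈ T.powersetCard t, Pr U q (fun E => X ⊆ E) = q ^ t := by
    intro X hX
    rw [Finset.mem_powersetCard] at hX
    rw [Pr_subset (hX.1.trans hT), hX.2]
  rw [Finset.sum_congr rfl h3]
  simp [Finset.card_powersetCard]

theorem choose_mul_pow_le (h0 : 0 ≤ q) (n t : ℕ) (ht : 0 < t) :
    (n.choose t : ℝ) * q ^ t ≤ (Real.exp 1 * n * q / t) ^ t := by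
  have h2 : (n.choose t : ℝ) ≤ (n:ℝ) ^ t / t.factorial := Nat.choose_le_pow_div t n
  have h3 : (t:ℝ) ^ t / t.factorial ≤ Real.exp t := by
    exact Real.pow_div_factorial_le_exp _ (by positivity) t
  have ht' : (0:ℝ) < t := by exact_mod_cast ht
  have h4 : (1:ℝ) / t.factorial ≤ Real.exp t / (t:ℝ)^t := by
    rw [div_le_div_iff₀ (by positivity) (by positivity)]
    rw [div_le_iff₀ (by positivity)] at h3
    linarith
  calc (n.choose t : ℝ) * q ^ t ≤ ((n:ℝ) ^ t / t.factorial) * q ^ t := by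
        apply mul_le_mul_of_nonneg_right h2 (by positivity)
    _ = ((n:ℝ) ^ t * q ^ t) * (1 / t.factorial) := by ring
    _ ≤ ((n:ℝ) ^ t * q ^ t) * (Real.exp t / (t:ℝ)^t) := by
        apply mul_le_mul_of_nonneg_left h4 (by positivity)
    _ = (Real.exp 1 * n * q / t) ^ t := by
        rw [div_pow, mul_pow, mul_pow, ← Real.exp_nat_mul]
        simp only [mul_one]
        ring

theorem Pr_card_ge' (h0 : 0 ≤ q) (h1 : q ≤ 1) {T : Finset α} (hT : T ⊆ U) (t : ℕ) (ht : 0 < t) :
    Pr U q (fun E => t ≤ (E ∩ T).card) ≤ (Real.exp 1 * T.card * q / t) ^ t :=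
  (Pr_card_ge h0 h1 hT t).trans (choose_mul_pow_le h0 _ t ht)

theorem Ex_pow_card (x : ℝ) : Ex U q (fun E => x ^ E.card) = (1 - q + q * x) ^ U.card := by
  unfold Ex
  have := Finset.sum_pow_mul_eq_add_pow (q * x) (1 - q) U
  rw [add_comm (1 - q), ← this]
  apply Finset.sum_congr rfl
  intro t _
  rw [mul_pow]
  ring

/-- lower tail -/
theorem Pr_card_le (h0 : 0 ≤ q) (h1 : q ≤ 1) {T : Finset α} (hT : T ⊆ U) :
    Pr U q (fun E => ((E ∩ T).card : ℝ) ≤ q * T.card / 2) ≤ Real.exp (- (q * T.card / 8)) := by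
  have h2 : Pr U q (fun E => ((E ∩ T).card : ℝ) ≤ q * T.card / 2)
      = Pr T q (fun E => (E.card : ℝ) ≤ q * T.card / 2) := by
    rw [Pr_marg hT]
    · apply Pr_congr
      intro E hE
      rw [Finset.inter_eq_left.mpr hE]
    · intro E _
      simp only [Finset.inter_assoc, Finset.inter_self]
  rw [h2]
  have hc : (0:ℝ) < (1/2:ℝ) ^ (q * T.card / 2 : ℝ) := by positivity
  have h3 : Pr T q (fun E => (E.card : ℝ) ≤ q * T.card / 2)
      = Pr T q (fun E => (1/2:ℝ) ^ (q * T.card / 2 : ℝ) ≤ (1/2:ℝ) ^ E.card) := by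
    apply Pr_congr
    intro E _
    rw [← Real.rpow_natCast]
    rw [Real.rpow_le_rpow_left_iff_of_base_lt_one (by norm_num) (by norm_num)]
  rw [h3]
  refine (Pr_markov h0 h1 _ (fun E _ => by positivity) hc).trans ?_
  rw [Ex_pow_card]
  have h4 : (1 - q + q * (1/2)) ≤ Real.exp (-(q/2)) := by
    have := Real.add_one_le_exp (-(q/2))
    linarith
  have h5 : 0 ≤ (1 - q + q * (1/2)) := by linarith
  have h6 : (1 - q + q * (1/2)) ^ T.card ≤ Real.exp (-(q * T.card/2)) := by
    calc (1 - q + q * (1/2)) ^ T.card ≤ (Real.exp (-(q/2))) ^ T.card := by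
          apply pow_le_pow_left₀ h5 h4
      _ = Real.exp (-(q * T.card/2)) := by
          rw [← Real.exp_nat_mul]; congr 1; ring
  have h7 : (1/2:ℝ) ^ (q * T.card / 2 : ℝ) = Real.exp (-(Real.log 2 * (q * T.card / 2))) := by
    rw [Real.rpow_def_of_pos (by norm_num)]
    congr 1
    rw [one_div, Real.log_inv]; ring
  rw [h7, div_le_iff₀ (Real.exp_pos _), ← Real.exp_add]
  refine h6.trans (Real.exp_le_exp.mpr ?_)
  have hl : Real.log 2 < 0.6931471808 := Real.log_two_lt_d9
  have hqT : 0 ≤ q * T.card := by positivity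
  nlinarith

/-- Harris inequality. -/
theorem Ex_harris (h0 : 0 ≤ q) (h1 : q ≤ 1) (f g : Finset α → ℝ)
    (hf : ∀ E E', E ⊆ E' → E' ⊆ U → f E ≤ f E') (hg : ∀ E E', E ⊆ E' → E' ⊆ U → g E ≤ g E') :
    Ex U q f * Ex U q g ≤ Ex U q (fun E => f E * g E) := by
  induction U using Finset.induction_on generalizing f g with
  | empty => simp [Ex_empty]
  | insert a U ha ih =>
    rw [Ex_insert ha, Ex_insert ha, Ex_insert ha]
    have hU : U ⊆ insert a U := Finset.subset_insert a U
    have i1 := ih f g (fun E E' h h' => hf E E' h (h'.trans hU))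
      (fun E E' h h' => hg E E' h (h'.trans hU))
    have i2 := ih (fun E => f (insert a E)) (fun E => g (insert a E))
      (fun E E' h h' => hf _ _ (Finset.insert_subset_insert a h) (Finset.insert_subset_insert a h'))
      (fun E E' h h' => hg _ _ (Finset.insert_subset_insert a h) (Finset.insert_subset_insert a h'))
    have j1 : Ex U q f ≤ Ex U q (fun E => f (insert a E)) := by
      apply Ex_mono h0 h1
      intro E hE
      exact hf _ _ (Finset.subset_insert a E) (Finset.insert_subset_insert a hE)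
    have j2 : Ex U q g ≤ Ex U q (fun E => g (insert a E)) := by
      apply Ex_mono h0 h1
      intro E hE
      exact hg _ _ (Finset.subset_insert a E) (Finset.insert_subset_insert a hE)
    have h1' : 0 ≤ 1 - q := by linarith
    have k : 0 ≤ q * (1 - q) * ((Ex U q (fun E => f (insert a E)) - Ex U q f) *
        (Ex U q (fun E => g (insert a E)) - Ex U q g)) := by
      apply mul_nonneg (mul_nonneg h0 h1')
      exact mul_nonneg (sub_nonneg.mpr j1) (sub_nonneg.mpr j2)
    have k1 := mul_le_mul_of_nonneg_left i1 h1'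
    have k2 := mul_le_mul_of_nonneg_left i2 h0
    nlinarith

theorem Pr_harris (h0 : 0 ≤ q) (h1 : q ≤ 1) (A B : Finset α → Prop)
    (hA : ∀ E E', E ⊆ E' → E' ⊆ U → A E → A E') (hB : ∀ E E', E ⊆ E' → E' ⊆ U → B E → B E') :
    Pr U q A * Pr U q B ≤ Pr U q (fun E => A E ∧ B E) := by
  have hmono : ∀ (C : Finset α → Prop), (∀ E E', E ⊆ E' → E' ⊆ U → C E → C E') →
      ∀ E E', E ⊆ E' → E' ⊆ U → (if C E then (1:ℝ) else 0) ≤ (if C E' then (1:ℝ) else 0) := by
    intro C hC E E' h h'
    by_cases hE : C E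
    · simp [hE, hC E E' h h' hE]
    · simp only [hE, if_false]; split_ifs <;> norm_num
  refine (Ex_harris h0 h1 _ _ (hmono A hA) (hmono B hB)).trans (le_of_eq ?_)
  unfold Pr
  apply Ex_congr
  intro E _
  by_cases hA : A E <;> by_cases hB : B E <;> simp [hA, hB]

theorem Pr_harris_forall {ι : Type*} (h0 : 0 ≤ q) (h1 : q ≤ 1) (S : Finset ι)
    (A : ι → Finset α → Prop)
    (hA : ∀ i ∈ S, ∀ E E', E ⊆ E' → E' ⊆ U → A i E → A i E') :
    ∏ i ∈ S, Pr U q (A i) ≤ Pr U q (fun E => ∀ i ∈ S, A i E) := by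
  induction S using Finset.induction_on with
  | empty => simp [Pr_true]
  | insert a S ha ih =>
    rw [Finset.prod_insert ha]
    have h2 := ih (fun i hi => hA i (Finset.mem_insert_of_mem hi))
    have h3 := Pr_harris (U := U) h0 h1 (A a) (fun E => ∀ i ∈ S, A i E)
      (hA a (Finset.mem_insert_self a S))
      (fun E E' h h' hE i hi => hA i (Finset.mem_insert_of_mem hi) E E' h h' (hE i hi))
    have e1 : Pr U q (fun E => ∀ i ∈ insert a S, A i E)
        = Pr U q (fun E => A a E ∧ ∀ i ∈ S, A i E) := by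
      apply Pr_congr
      intro E _
      rw [Finset.forall_mem_insert]
    rw [e1]
    exact (mul_le_mul_of_nonneg_left h2 (Pr_nonneg h0 h1 _)).trans h3

end Pool.Agent.Helper96
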