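import Mathlib
import Pool.Agent.Helper96.Prob2

set_option autoImplicit false
set_option linter.unusedSectionVars false
set_option linter.unusedVariables false
open Classical Finset

namespace Pool.Agent.Helper96

variable {V : Type*} [DecidableEq V]

/-- `T` is rooted from `R`: every vertex of `T` can be reached inside `T` from `R ⊆ T`. -/
def Rooted (adj : V → V → Prop) (T R : Finset V) : Prop :=
  R ⊆ T ∧ ∀ w ∈ T, ∃ r ∈ R, Relation.ReflTransGen (fun a b => adj a b ∧ b ∈ T) r w

theorem reach_mono {r s : V → V → Prop} (h : ∀ a b, r a b → s a b) {x y : V}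
    (hp : Relation.ReflTransGen r x y) : Relation.ReflTransGen s x y := by
  induction hp with
  | refl => exact Relation.ReflTransGen.refl
  | tail _ hbc ih => exact ih.tail (h _ _ hbc)

theorem rooted_exit {adj : V → V → Prop} {T R T' : Finset V} (h : Rooted adj T R)
    (hR : R ⊆ T') (hT' : T' ⊂ T) : ∃ a ∈ T', ∃ b ∈ T, b ∉ T' ∧ adj a b := by
  obtain ⟨w, hw, hw'⟩ := Finset.exists_of_ssubset hT'
  obtain ⟨r, hr, hpath⟩ := h.2 w hw
  by_contra hcon
  push Not at hcon
  have : ∀ z, Relation.ReflTransGen (fun a b => adj a b ∧ b ∈ T) r z → z ∈ T' := by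
    intro z hz
    induction hz with
    | refl => exact hR hr
    | tail _ hbc ih =>
      by_contra hc
      exact hcon _ ih _ hbc.2 hc hbc.1
  exact hw' (this w hpath)

/-- Growth of a spanning forest: for every size between `|R|` and `|T|` there is a rooted subset of that
size, with a parent function and a rank function. -/
theorem exists_forest {adj : V → V → Prop} {T R : Finset V} (h : Rooted adj T R) (j : ℕ)
    (h1 : R.card ≤ j) (h2 : j ≤ T.card) :
    ∃ T' : Finset V, R ⊆ T' ∧ T' ⊆ T ∧ T'.card = j ∧ ∃ par : V → V, ∃ rk : V → ℕ,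
      ∀ x ∈ T', x ∉ R → par x ∈ T' ∧ adj (par x) x ∧ rk (par x) < rk x := by
  induction j, h1 using Nat.le_induction with
  | base =>
    refine ⟨R, Finset.Subset.refl R, h.1, rfl, id, fun _ => 0, ?_⟩
    intro x hx hx'
    exact absurd hx hx'
  | succ j hj ih =>
    obtain ⟨T', hRT, hTT, hc, par, rk, hpar⟩ := ih (by omega)
    have hss : T' ⊂ T := by
      refine Finset.ssubset_iff_subset_ne.mpr ⟨hTT, ?_⟩
      rintro rfl
      omega
    obtain ⟨a, ha, b, hb, hb', hab⟩ := rooted_exit h hRT hss
    refine ⟨insert b T', hRT.trans (Finset.subset_insert b T'), ?_, ?_,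
      Function.update par b a, Function.update rk b (rk a + 1), ?_⟩
    · exact Finset.insert_subset hb hTT
    · rw [Finset.card_insert_of_notMem hb', hc]
    · intro x hx hxR
      have hab' : a ≠ b := fun h' => hb' (h' ▸ ha)
      by_cases hxb : x = b
      · subst hxb
        simp only [Function.update_self]
        refine ⟨Finset.mem_insert_of_mem ha, hab, ?_⟩
        rw [Function.update_of_ne hab']
        omega
      · have hxT : x ∈ T' := by
          rcases Finset.mem_insert.mp hx with h' | h'
          · exact absurd h' hxb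
          · exact h'
        obtain ⟨p1, p2, p3⟩ := hpar x hxT hxR
        have hpb : par x ≠ b := fun h' => hb' (h' ▸ p1)
        rw [Function.update_of_ne hxb, Function.update_of_ne hpb, Function.update_of_ne hxb]
        exact ⟨Finset.mem_insert_of_mem p1, p2, p3⟩

theorem rooted_of_forest {adj : V → V → Prop} {T R : Finset V} (hR : R ⊆ T) (par : V → V)
    (rk : V → ℕ) (h : ∀ x ∈ T, x ∉ R → par x ∈ T ∧ adj (par x) x ∧ rk (par x) < rk x) :
    Rooted adj T R := by
  refine ⟨hR, ?_⟩
  have : ∀ n : ℕ, ∀ x ∈ T, rk x = n →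
      ∃ r ∈ R, Relation.ReflTransGen (fun a b => adj a b ∧ b ∈ T) r x := by
    intro n
    induction n using Nat.strong_induction_on with
    | _ n ih =>
      intro x hx hrk
      by_cases hxR : x ∈ R
      · exact ⟨x, hxR, Relation.ReflTransGen.refl⟩
      · obtain ⟨p1, p2, p3⟩ := h x hx hxR
        obtain ⟨r, hr, hp⟩ := ih _ (hrk ▸ p3) (par x) p1 rfl
        exact ⟨r, hr, hp.tail ⟨p2, hx⟩⟩
  intro w hw
  exact this _ w hw rfl

/-- Deleting a set `S` from a forest. -/
theorem forest_sdiff {adj : V → V → Prop} {T R : Finset V} (hR : R ⊆ T) (par : V → V)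
    (rk : V → ℕ) (h : ∀ x ∈ T, x ∉ R → par x ∈ T ∧ adj (par x) x ∧ rk (par x) < rk x)
    (S : Finset V) :
    ∃ R' : Finset V, Rooted adj (T \ S) R' ∧
      R'.card ≤ R.card + ∑ y ∈ S, ((T \ R).filter (fun x => par x = y)).card := by
  refine ⟨(R \ S) ∪ (T \ S).filter (fun x => x ∉ R ∧ par x ∈ S), ?_, ?_⟩
  · apply rooted_of_forest _ par rk
    · intro x hx hx'
      rw [Finset.mem_union, not_or] at hx'
      have hxT := (Finset.mem_sdiff.mp hx).1
      have hxS := (Finset.mem_sdiff.mp hx).2
      have hxR : x ∉ R := fun h' => hx'.1 (Finset.mem_sdiff.mpr ⟨h', hxS⟩)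
      have hpS : par x ∉ S := by
        intro h'
        exact hx'.2 (Finset.mem_filter.mpr ⟨hx, hxR, h'⟩)
      obtain ⟨p1, p2, p3⟩ := h x hxT hxR
      exact ⟨Finset.mem_sdiff.mpr ⟨p1, hpS⟩, p2, p3⟩
    · apply Finset.union_subset
      · exact Finset.sdiff_subset_sdiff hR (Finset.Subset.refl S)
      · exact Finset.filter_subset _ _
  · refine (Finset.card_union_le _ _).trans ?_
    apply Nat.add_le_add
    · exact Finset.card_le_card Finset.sdiff_subset
    · have : (T \ S).filter (fun x => x ∉ R ∧ par x ∈ S) ⊆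
          S.biUnion (fun y => (T \ R).filter (fun x => par x = y)) := by
        intro x hx
        rw [Finset.mem_filter, Finset.mem_sdiff] at hx
        rw [Finset.mem_biUnion]
        exact ⟨par x, hx.2.2, Finset.mem_filter.mpr ⟨Finset.mem_sdiff.mpr ⟨hx.1.1, hx.2.1⟩, rfl⟩⟩
      exact (Finset.card_le_card this).trans Finset.card_biUnion_le

/-- Counting rooted sets by site percolation. -/
theorem sum_rooted_le {adj : V → V → Prop} (Λ R : Finset V) (D : ℕ) (hD : 0 < D)
    (hdeg : ∀ x ∈ Λ, (Λ.filter (fun y => adj x y)).card ≤ D) :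
    ∑ T ∈ Λ.powerset.filter (fun T => Rooted adj T R), (1 / (4 * D : ℝ)) ^ T.card ≤ 1 := by
  set a : ℝ := 1 / (2 * D) with ha
  have hD' : (1:ℝ) ≤ D := by exact_mod_cast hD
  have ha0 : 0 < a := by positivity
  have ha1 : a ≤ 1/2 := by
    rw [ha]
    rw [div_le_div_iff₀ (by positivity) (by norm_num)]
    linarith
  set bd : Finset V → Finset V := fun T => (Λ \ T).filter (fun y => ∃ x ∈ T, adj x y) with hbd
  have hbdcard : ∀ T, T ⊆ Λ → (bd T).card ≤ D * T.card := by
    intro T hT
    have : bd T ⊆ T.biUnion (fun x => Λ.filter (fun y => adj x y)) := by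
      intro y hy
      rw [hbd] at hy
      simp only [Finset.mem_filter, Finset.mem_sdiff] at hy
      obtain ⟨⟨hy1, _⟩, x, hx, hxy⟩ := hy
      rw [Finset.mem_biUnion]
      exact ⟨x, hx, Finset.mem_filter.mpr ⟨hy1, hxy⟩⟩
    refine (Finset.card_le_card this).trans (Finset.card_biUnion_le.trans ?_)
    refine (Finset.sum_le_sum (fun x hx => hdeg x (hT hx))).trans ?_
    simp [mul_comm]
  have hpr : ∀ T, T ⊆ Λ → (1 / (4 * D : ℝ)) ^ T.card ≤
      Pr Λ a (fun ω => T ⊆ ω ∧ Disjoint (bd T) ω) := by
    intro T hT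
    have hbT : bd T ⊆ Λ := (Finset.filter_subset _ _).trans Finset.sdiff_subset
    have hdis : Disjoint T (bd T) := by
      rw [Finset.disjoint_left]
      intro x hx hx'
      rw [hbd] at hx'
      simp only [Finset.mem_filter, Finset.mem_sdiff] at hx'
      exact hx'.1.2 hx
    rw [Pr_and_indep (U := Λ) hdis (Finset.union_subset hT hbT)]
    · rw [Pr_subset (Finset.Subset.refl T), Pr_disjoint (Finset.Subset.refl _)]
      have h1 : (1/2:ℝ) ≤ (1 - a) ^ D := by
        have := one_add_mul_le_pow (a := -a) (by linarith) D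
        have h3 : (1:ℝ) + D * (-a) = 1/2 := by
          rw [ha]; field_simp; norm_num
        rw [h3] at this
        rwa [← sub_eq_add_neg] at this
      have h1a : 0 ≤ 1 - a := by linarith
      have h2 : ((1/2:ℝ)) ^ T.card ≤ (1 - a) ^ (bd T).card := by
        calc ((1/2:ℝ)) ^ T.card ≤ ((1 - a) ^ D) ^ T.card := by
              apply pow_le_pow_left₀ (by norm_num) h1
          _ = (1 - a) ^ (D * T.card) := by rw [← pow_mul]
          _ ≤ (1 - a) ^ (bd T).card := by
              apply pow_le_pow_of_le_one h1a (by linarith) (hbdcard T hT)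
      have h3 : (1 / (4 * D : ℝ)) ^ T.card = a ^ T.card * (1/2) ^ T.card := by
        rw [← mul_pow]
        congr 1
        rw [ha]; field_simp; norm_num
      rw [h3]
      exact mul_le_mul_of_nonneg_left h2 (by positivity)
    · intro E _
      constructor
      · intro h x hx; exact Finset.mem_inter.mpr ⟨h hx, hx⟩
      · intro h x hx; exact (Finset.mem_inter.mp (h hx)).1
    · intro E _
      rw [Finset.disjoint_left, Finset.disjoint_left]
      constructor
      · intro h x hx hx'; exact h hx (Finset.mem_inter.mp hx').1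
      · intro h x hx hx'; exact h hx (Finset.mem_inter.mpr ⟨hx', hx⟩)
  have huniq : ∀ ω, ω ⊆ Λ → ∀ T, T ⊆ Λ → Rooted adj T R → T ⊆ ω → Disjoint (bd T) ω →
      T = ω.filter (fun w => ∃ r ∈ R, r ∈ ω ∧
        Relation.ReflTransGen (fun a b => adj a b ∧ b ∈ ω) r w) := by
    intro ω hω T hT hroot hTω hdis
    ext w
    rw [Finset.mem_filter]
    constructor
    · intro hw
      obtain ⟨r, hr, hp⟩ := hroot.2 w hw
      refine ⟨hTω hw, r, hr, hTω (hroot.1 hr), ?_⟩
      exact reach_mono (fun a b hab => ⟨hab.1, hTω hab.2⟩) hp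
    · rintro ⟨_, r, hr, _, hp⟩
      clear * - hroot hp hr hbd hω hdis
      induction hp with
      | refl => exact hroot.1 hr
      | @tail b c _ hbc ih =>
        by_contra hc
        have hcbd : c ∈ bd T := by
          rw [hbd]
          simp only [Finset.mem_filter, Finset.mem_sdiff]
          exact ⟨⟨hω hbc.2, hc⟩, b, ih, hbc.1⟩
        exact (Finset.disjoint_left.mp hdis) hcbd hbc.2
  calc ∑ T ∈ Λ.powerset.filter (fun T => Rooted adj T R), (1 / (4 * D : ℝ)) ^ T.card
      ≤ ∑ T ∈ Λ.powerset.filter (fun T => Rooted adj T R),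
          Pr Λ a (fun ω => T ⊆ ω ∧ Disjoint (bd T) ω) := by
        apply Finset.sum_le_sum
        intro T hT
        rw [Finset.mem_filter, Finset.mem_powerset] at hT
        exact hpr T hT.1
    _ ≤ 1 := by
        apply sum_Pr_le_one ha0.le (by linarith)
        intro ω hω T hT T' hT' h1 h2
        rw [Finset.mem_filter, Finset.mem_powerset] at hT hT'
        rw [huniq ω hω T hT.1 hT.2 h1.1 h1.2, huniq ω hω T' hT'.1 hT'.2 h2.1 h2.2]

theorem card_small_subsets (Λ : Finset V) (r : ℕ) :
    (Λ.powerset.filter (fun R => R.card ≤ r)).card ≤ (Λ.card + 1) ^ r := by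
  have key : ((Finset.univ : Finset (Fin r → Option Λ))).card = (Λ.card + 1) ^ r := by
    simp
  rw [← key]
  apply Finset.card_le_card_of_surjOn (fun f : Fin r → Option Λ =>
    (Finset.univ.image f).biUnion (fun o => o.elim ∅ (fun x => {(x:V)})))
  intro R hR
  rw [Finset.mem_coe, Finset.mem_filter, Finset.mem_powerset] at hR
  obtain ⟨hR1, hR2⟩ := hR
  have e := R.equivFin
  refine ⟨fun i => if h : (i:ℕ) < R.card then some ⟨(e.symm ⟨i, h⟩ : V), hR1 (e.symm ⟨i, h⟩).2⟩
    else none, Finset.mem_coe.mpr (Finset.mem_univ _), ?_⟩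
  ext x
  simp only [Finset.mem_biUnion, Finset.mem_image, Finset.mem_univ, true_and]
  constructor
  · rintro ⟨o, ⟨i, rfl⟩, hx⟩
    by_cases h : (i:ℕ) < R.card
    · simp only [h, dite_true, Option.elim_some, Finset.mem_singleton] at hx
      rw [hx]
      exact (e.symm ⟨i, h⟩).2
    · simp [h] at hx
  · intro hx
    have hlt : ((e ⟨x, hx⟩ : Fin R.card) : ℕ) < R.card := (e ⟨x, hx⟩).2
    refine ⟨_, ⟨⟨(e ⟨x, hx⟩ : Fin R.card), lt_of_lt_of_le hlt hR2⟩, rfl⟩, ?_⟩
    simp [hlt]

/-- Sparse subset with small internal weight. -/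
theorem exists_coloring (H : Finset V) (w : V → V → ℕ) (t : ℕ) (ht : 0 < t) :
    ∃ f : V → Fin t, t * (∑ v ∈ H, ∑ y ∈ H, if v ≠ y ∧ f v = f y then w v y else 0)
      ≤ ∑ v ∈ H, ∑ y ∈ H, w v y := by
  induction H using Finset.induction_on with
  | empty => exact ⟨fun _ => ⟨0, ht⟩, by simp⟩
  | insert a H ha ih =>
    obtain ⟨f, hf⟩ := ih
    -- choose the color of `a`
    have hne : (Finset.univ : Finset (Fin t)).Nonempty := ⟨⟨0, ht⟩, Finset.mem_univ _⟩
    have hsum : ∑ c : Fin t, (∑ y ∈ H, if f y = c then (w a y + w y a) else 0)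
        = ∑ y ∈ H, (w a y + w y a) := by
      rw [Finset.sum_comm]
      apply Finset.sum_congr rfl
      intro y _
      simp
    obtain ⟨c, _, hc⟩ := Finset.exists_le_of_sum_le
      (f := fun c : Fin t => t * (∑ y ∈ H, if f y = c then (w a y + w y a) else 0))
      (g := fun _ => ∑ y ∈ H, (w a y + w y a)) hne (by
        rw [← Finset.mul_sum, hsum]
        simp)
    refine ⟨Function.update f a c, ?_⟩
    have hfa : ∀ y ∈ H, Function.update f a c y = f y := by
      intro y hy
      rw [Function.update_of_ne]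
      rintro rfl
      exact ha hy
    have hfaa : Function.update f a c a = c := Function.update_self _ _ _
    set g := Function.update f a c with hg
    have e1 : ∑ v ∈ insert a H, ∑ y ∈ insert a H, (if v ≠ y ∧ g v = g y then w v y else 0)
        = (∑ y ∈ H, if f y = c then (w a y + w y a) else 0)
          + ∑ v ∈ H, ∑ y ∈ H, (if v ≠ y ∧ f v = f y then w v y else 0) := by
      rw [Finset.sum_insert ha, Finset.sum_insert ha]
      simp only [ne_eq, not_true_eq_false, false_and, if_false, zero_add]
      have e2 : ∑ v ∈ H, ∑ y ∈ insert a H, (if v ≠ y ∧ g v = g y then w v y else 0)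
          = ∑ v ∈ H, ((if f v = c then w v a else 0) +
            ∑ y ∈ H, (if v ≠ y ∧ f v = f y then w v y else 0)) := by
        apply Finset.sum_congr rfl
        intro v hv
        have hva : v ≠ a := fun h => ha (h ▸ hv)
        rw [Finset.sum_insert ha, hfaa, hfa v hv]
        congr 1
        · simp [hva]
        · apply Finset.sum_congr rfl
          intro y hy
          rw [hfa y hy]
      have e2' : ∑ v ∈ H, ∑ y ∈ insert a H, (if ¬ (v = y) ∧ g v = g y then w v y else 0)
          = ∑ v ∈ H, ∑ y ∈ insert a H, (if v ≠ y ∧ g v = g y then w v y else 0) := rfl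
      rw [e2', e2, Finset.sum_add_distrib, ← add_assoc]
      congr 1
      rw [← Finset.sum_add_distrib]
      apply Finset.sum_congr rfl
      intro y hy
      have hya : ¬ (a = y) := fun h => ha (h ▸ hy)
      rw [hfaa, hfa y hy]
      by_cases h : f y = c
      · have h' : c = f y := h.symm
        simp [h', hya]
      · have h' : ¬ (c = f y) := fun h'' => h h''.symm
        simp [h, h']
    have e3 : ∑ v ∈ insert a H, ∑ y ∈ insert a H, w v y
        = w a a + (∑ y ∈ H, (w a y + w y a)) + ∑ v ∈ H, ∑ y ∈ H, w v y := by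
      rw [Finset.sum_insert ha, Finset.sum_insert ha]
      have : ∑ v ∈ H, ∑ y ∈ insert a H, w v y = ∑ v ∈ H, (w v a + ∑ y ∈ H, w v y) := by
        apply Finset.sum_congr rfl
        intro v _
        rw [Finset.sum_insert ha]
      rw [this, Finset.sum_add_distrib, Finset.sum_add_distrib]
      ring
    rw [e1, e3, mul_add]
    linarith

/-- There is a subset `S` of `H`, of size at least `|H|/(2t)`, in which every vertex sends only a
fraction `2/t` of its weight into `S`. -/
theorem exists_sparse (H : Finset V) (w : V → V → ℕ) (t W : ℕ) (ht : 0 < t)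
    (hself : ∀ v ∈ H, w v v = 0) (hw : ∀ v ∈ H, ∑ y ∈ H, w v y ≤ W) :
    ∃ S ⊆ H, H.card ≤ 2 * t * S.card ∧ ∀ v ∈ S, t * ∑ y ∈ S, w v y ≤ 2 * W := by
  obtain ⟨f, hf⟩ := exists_coloring H w t ht
  set g : V → ℕ := fun v => ∑ y ∈ H, if v ≠ y ∧ f v = f y then w v y else 0 with hg
  set G := H.filter (fun v => t * g v ≤ 2 * W) with hG
  -- at least half of the vertices are good
  have hgood : H.card ≤ 2 * G.card := by
    set B := H.filter (fun v => ¬ (t * g v ≤ 2 * W)) with hB
    have hcard : G.card + B.card = H.card := Finset.card_filter_add_card_filter_not _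
    have hBc : 2 * B.card ≤ H.card := by
      have h1 : ∑ v ∈ B, (2 * W + 1) ≤ ∑ v ∈ B, t * g v := by
        apply Finset.sum_le_sum
        intro v hv
        rw [hB, Finset.mem_filter] at hv
        omega
      have h2 : ∑ v ∈ B, t * g v ≤ ∑ v ∈ H, t * g v :=
        Finset.sum_le_sum_of_subset (Finset.filter_subset _ _)
      have h3 : ∑ v ∈ H, t * g v ≤ H.card * W := by
        rw [← Finset.mul_sum]
        refine hf.trans ?_
        refine (Finset.sum_le_sum hw).trans ?_
        simp
      have h4 : B.card * (2 * W + 1) ≤ H.card * W := by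
        have : ∑ v ∈ B, (2 * W + 1) = B.card * (2 * W + 1) := by simp
        rw [← this]
        exact h1.trans (h2.trans h3)
      by_contra hcon
      push Not at hcon
      have h5 : H.card * W ≤ 2 * B.card * W := Nat.mul_le_mul_right W hcon.le
      have h6 : B.card * (2 * W + 1) = 2 * B.card * W + B.card := by ring
      have hB0 : 0 < B.card := by omega
      omega
    omega
  -- pigeonhole on colors
  have hex : ∃ c : Fin t, G.card ≤ t * (G.filter (fun v => f v = c)).card := by
    by_contra hcon
    push Not at hcon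
    have h1 : ∑ c : Fin t, (G.filter (fun v => f v = c)).card = G.card := by
      exact (Finset.card_eq_sum_card_fiberwise (f := f) (s := G) (t := Finset.univ)
        (by intro x _; simp)).symm
    have h2 : t * ∑ c : Fin t, (G.filter (fun v => f v = c)).card < t * G.card := by
      rw [Finset.mul_sum]
      have : t * G.card = ∑ _c : Fin t, G.card := by simp
      rw [this]
      apply Finset.sum_lt_sum_of_nonempty ⟨⟨0, ht⟩, Finset.mem_univ _⟩
      intro c _
      exact hcon c
    rw [h1] at h2
    exact lt_irrefl _ h2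
  obtain ⟨c, hc⟩ := hex
  refine ⟨G.filter (fun v => f v = c), ?_, ?_, ?_⟩
  · exact (Finset.filter_subset _ _).trans (Finset.filter_subset _ _)
  · calc H.card ≤ 2 * G.card := hgood
      _ ≤ 2 * (t * (G.filter (fun v => f v = c)).card) := Nat.mul_le_mul_left 2 hc
      _ = _ := by ring
  · intro v hv
    rw [Finset.mem_filter, hG, Finset.mem_filter] at hv
    obtain ⟨⟨hvH, hvg⟩, hvc⟩ := hv
    refine le_trans (Nat.mul_le_mul_left t ?_) hvg
    rw [hg]
    have hsub : G.filter (fun v => f v = c) ⊆ H :=
      (Finset.filter_subset _ _).trans (Finset.filter_subset _ _)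
    calc ∑ y ∈ G.filter (fun v => f v = c), w v y
        ≤ ∑ y ∈ G.filter (fun v => f v = c), (if v ≠ y ∧ f v = f y then w v y else 0) := by
          apply Finset.sum_le_sum
          intro y hy
          rw [Finset.mem_filter] at hy
          by_cases hvy : v = y
          · subst hvy
            rw [hself v hvH]; simp
          · have : f v = f y := by rw [hvc, hy.2]
            simp [hvy, this]
      _ ≤ ∑ y ∈ H, (if v ≠ y ∧ f v = f y then w v y else 0) :=
          Finset.sum_le_sum_of_subset hsub

end Pool.Agent.Helper96
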