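import Mathlib
import Pool.Agent.Helper96.Rooted

set_option autoImplicit false
set_option linter.unusedSectionVars false
set_option linter.unusedVariables false
open Classical Finset

namespace Pool.Agent.Helper96

/-- all pairs of distinct vertices of `V` -/
noncomputable def prs (V : Finset ℕ) : Finset (Sym2 ℕ) := V.offDiag.image (fun p => s(p.1, p.2))

theorem mem_prs {V : Finset ℕ} {x y : ℕ} : s(x, y) ∈ prs V ↔ x ∈ V ∧ y ∈ V ∧ x ≠ y := by
  unfold prs
  rw [Finset.mem_image]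
  constructor
  · rintro ⟨⟨a, b⟩, hab, h⟩
    rw [Finset.mem_offDiag] at hab
    simp only at hab h
    rw [Sym2.eq_iff] at h
    rcases h with ⟨rfl, rfl⟩ | ⟨rfl, rfl⟩
    · exact hab
    · exact ⟨hab.2.1, hab.1, hab.2.2.symm⟩
  · intro h
    exact ⟨(x, y), Finset.mem_offDiag.mpr h, rfl⟩

theorem prs_mono {V W : Finset ℕ} (h : V ⊆ W) : prs V ⊆ prs W := by
  intro e
  induction e using Sym2.ind with
  | _ x y =>
    rw [mem_prs, mem_prs]
    rintro ⟨h1, h2, h3⟩
    exact ⟨h h1, h h2, h3⟩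

/-- all pairs `{v, w}` with `w ∈ T` -/
noncomputable def inc (v : ℕ) (T : Finset ℕ) : Finset (Sym2 ℕ) := T.image (fun w => s(v, w))

theorem mem_inc {v x y : ℕ} {T : Finset ℕ} :
    s(x, y) ∈ inc v T ↔ (x = v ∧ y ∈ T) ∨ (y = v ∧ x ∈ T) := by
  unfold inc
  rw [Finset.mem_image]
  constructor
  · rintro ⟨w, hw, h⟩
    rw [Sym2.eq_iff] at h
    rcases h with ⟨rfl, rfl⟩ | ⟨rfl, rfl⟩
    · exact Or.inl ⟨rfl, hw⟩
    · exact Or.inr ⟨rfl, hw⟩
  · rintro (⟨rfl, h⟩ | ⟨rfl, h⟩)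
    · exact ⟨y, h, rfl⟩
    · exact ⟨x, h, Sym2.eq_swap⟩

theorem sym2_inj_right {v w w' : ℕ} (h : s(v, w) = s(v, w')) : w = w' := by
  rw [Sym2.eq_iff] at h
  rcases h with ⟨_, h⟩ | ⟨h1, h2⟩
  · exact h
  · rw [h2, h1]

theorem card_inc (v : ℕ) (T : Finset ℕ) : (inc v T).card = T.card := by
  unfold inc
  apply Finset.card_image_of_injective
  intro w w' h
  exact sym2_inj_right h

theorem inc_subset_prs {v : ℕ} {T V : Finset ℕ} (hv : v ∈ V) (hT : T ⊆ V) (hvT : v ∉ T) :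
    inc v T ⊆ prs V := by
  intro e
  induction e using Sym2.ind with
  | _ x y =>
    rw [mem_inc, mem_prs]
    rintro (⟨rfl, h⟩ | ⟨rfl, h⟩)
    · exact ⟨hv, hT h, fun h' => hvT (h' ▸ h)⟩
    · exact ⟨hT h, hv, fun h' => hvT (h' ▸ h)⟩

/-- open neighbours of `v` in `V` -/
noncomputable def nbr (E : Finset (Sym2 ℕ)) (V : Finset ℕ) (v : ℕ) : Finset ℕ :=
  V.filter (fun w => s(v, w) ∈ E)

theorem mem_nbr {E : Finset (Sym2 ℕ)} {V : Finset ℕ} {v w : ℕ} :
    w ∈ nbr E V v ↔ w ∈ V ∧ s(v, w) ∈ E := by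
  unfold nbr; rw [Finset.mem_filter]

theorem card_inter_inc (E : Finset (Sym2 ℕ)) (V : Finset ℕ) (v : ℕ) :
    (E ∩ inc v V).card = (nbr E V v).card := by
  have : E ∩ inc v V = (nbr E V v).image (fun w => s(v, w)) := by
    ext e
    unfold inc
    rw [Finset.mem_inter, Finset.mem_image, Finset.mem_image]
    constructor
    · rintro ⟨he, w, hw, rfl⟩
      exact ⟨w, mem_nbr.mpr ⟨hw, he⟩, rfl⟩
    · rintro ⟨w, hw, rfl⟩
      rw [mem_nbr] at hw
      exact ⟨hw.2, w, hw.1, rfl⟩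
  rw [this]
  apply Finset.card_image_of_injective
  intro w w' h
  exact sym2_inj_right h

/-- all pairs of `V` incident to `Y` -/
noncomputable def incs (Y V : Finset ℕ) : Finset (Sym2 ℕ) := (prs V).filter (fun e => ∃ y ∈ Y, y ∈ e)

theorem mem_incs {Y V : Finset ℕ} {x y : ℕ} :
    s(x, y) ∈ incs Y V ↔ (x ∈ V ∧ y ∈ V ∧ x ≠ y) ∧ (x ∈ Y ∨ y ∈ Y) := by
  unfold incs
  rw [Finset.mem_filter, mem_prs]
  constructor
  · rintro ⟨h, z, hz, hz'⟩
    refine ⟨h, ?_⟩
    rw [Sym2.mem_iff] at hz'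
    rcases hz' with rfl | rfl
    · exact Or.inl hz
    · exact Or.inr hz
  · rintro ⟨h, h' | h'⟩
    · exact ⟨h, x, h', Sym2.mem_mk_left x y⟩
    · exact ⟨h, y, h', Sym2.mem_mk_right x y⟩

theorem incs_subset (Y V : Finset ℕ) : incs Y V ⊆ prs V := Finset.filter_subset _ _

theorem card_incs_le (Y V : Finset ℕ) : (incs Y V).card ≤ Y.card * V.card := by
  have : incs Y V ⊆ Y.biUnion (fun y => inc y V) := by
    intro e
    induction e using Sym2.ind with
    | _ x y =>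
      rw [mem_incs, Finset.mem_biUnion]
      rintro ⟨h, h' | h'⟩
      · exact ⟨x, h', mem_inc.mpr (Or.inl ⟨rfl, h.2.1⟩)⟩
      · exact ⟨y, h', mem_inc.mpr (Or.inr ⟨rfl, h.1⟩)⟩
  refine (Finset.card_le_card this).trans (Finset.card_biUnion_le.trans ?_)
  simp [card_inc]

theorem sum_nbr_le {E : Finset (Sym2 ℕ)} {V : Finset ℕ} (hE : E ⊆ prs V) (Y : Finset ℕ) :
    ∑ y ∈ Y, (nbr E V y).card ≤ 2 * (E ∩ incs Y V).card := by
  have h1 : ∑ y ∈ Y, (nbr E V y).card = (Y.sigma (fun y => nbr E V y)).card := by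
    rw [Finset.card_sigma]
  rw [h1]
  set f : (Σ _ : ℕ, ℕ) → Sym2 ℕ := fun p => s(p.1, p.2) with hf
  have h2 : (Y.sigma (fun y => nbr E V y)).card ≤
      2 * ((Y.sigma (fun y => nbr E V y)).image f).card := by
    apply Finset.card_le_mul_card_image
    intro e he
    rw [Finset.mem_image] at he
    obtain ⟨⟨a, b⟩, hab, rfl⟩ := he
    have : (Finset.filter (fun x => f x = f ⟨a, b⟩) (Y.sigma (fun y => nbr E V y))) ⊆
        {⟨a, b⟩, ⟨b, a⟩} := by
      rintro ⟨c, d⟩ hcd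
      rw [Finset.mem_filter] at hcd
      have h3 := hcd.2
      simp only [hf, Sym2.eq_iff] at h3
      rw [Finset.mem_insert, Finset.mem_singleton]
      rcases h3 with ⟨rfl, rfl⟩ | ⟨rfl, rfl⟩
      · exact Or.inl rfl
      · exact Or.inr rfl
    exact (Finset.card_le_card this).trans Finset.card_le_two
  refine h2.trans (Nat.mul_le_mul_left 2 (Finset.card_le_card ?_))
  intro e he
  rw [Finset.mem_image] at he
  obtain ⟨⟨a, b⟩, hab, rfl⟩ := he
  rw [Finset.mem_sigma, mem_nbr] at hab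
  simp only at hab
  have h4 := hE hab.2.2
  rw [Finset.mem_inter]
  exact ⟨hab.2.2, mem_incs.mpr ⟨mem_prs.mp h4, Or.inl hab.1⟩⟩

/-- Large deviations for the total degree of high degree vertices. -/
theorem Pr_big_degrees {q : ℝ} (h0 : 0 ≤ q) (h1 : q ≤ 1) (V : Finset ℕ) (Δ t : ℕ) (hΔ : 0 < Δ)
    (ht : 0 < t) (x : ℝ) (hx : 2 * Real.exp 1 * V.card * q / Δ ≤ x) (hx1 : x ≤ 1) :
    Pr (prs V) q (fun E => 2 * t ≤ ∑ y ∈ V.filter (fun y => Δ ≤ (nbr E V y).card),
      (nbr E V y).card) ≤ 2 ^ V.card * x ^ t := by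
  have hx0 : 0 ≤ x := le_trans (by positivity) hx
  have hΔ' : (0:ℝ) < Δ := by exact_mod_cast hΔ
  have key : Pr (prs V) q (fun E => 2 * t ≤ ∑ y ∈ V.filter (fun y => Δ ≤ (nbr E V y).card),
      (nbr E V y).card) ≤ Pr (prs V) q (fun E => ∃ Y ∈ V.powerset,
        (max t ((Y.card * Δ + 1) / 2)) ≤ (E ∩ incs Y V).card) := by
    apply Pr_mono h0 h1
    intro E hE h
    set Y := V.filter (fun y => Δ ≤ (nbr E V y).card) with hY
    refine ⟨Y, Finset.mem_powerset.mpr (Finset.filter_subset _ _), ?_⟩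
    have h2 : ∑ y ∈ Y, (nbr E V y).card ≤ 2 * (E ∩ incs Y V).card := sum_nbr_le hE Y
    have h3 : Y.card * Δ ≤ ∑ y ∈ Y, (nbr E V y).card := by
      have : ∑ y ∈ Y, Δ ≤ ∑ y ∈ Y, (nbr E V y).card := by
        apply Finset.sum_le_sum
        intro y hy
        exact (Finset.mem_filter.mp hy).2
      simpa using this
    apply max_le
    · omega
    · omega
  refine key.trans ((Pr_exists_le h0 h1 _ _).trans ?_)
  have h2 : ∀ Y ∈ V.powerset, Pr (prs V) q (fun E =>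
        (max t ((Y.card * Δ + 1) / 2)) ≤ (E ∩ incs Y V).card) ≤ x ^ t := by
    intro Y hY
    set t' := max t ((Y.card * Δ + 1) / 2) with ht'
    have ht1 : t ≤ t' := le_max_left _ _
    have ht2 : (Y.card * Δ + 1) / 2 ≤ t' := le_max_right _ _
    have ht3 : Y.card * Δ ≤ 2 * t' := by omega
    have ht0 : 0 < t' := lt_of_lt_of_le ht ht1
    have ht0' : (0:ℝ) < t' := by exact_mod_cast ht0
    refine (Pr_card_ge' h0 h1 (incs_subset Y V) t' ht0).trans ?_
    have h5 : Real.exp 1 * (incs Y V).card * q / t' ≤ x := by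
      refine le_trans ?_ hx
      rw [div_le_div_iff₀ ht0' hΔ']
      have c1 : ((incs Y V).card : ℝ) ≤ Y.card * V.card := by exact_mod_cast card_incs_le Y V
      have c2 : (Y.card : ℝ) * Δ ≤ 2 * t' := by exact_mod_cast ht3
      have he : 0 < Real.exp 1 := Real.exp_pos 1
      calc Real.exp 1 * (incs Y V).card * q * Δ
          ≤ Real.exp 1 * (Y.card * V.card) * q * Δ := by gcongr
        _ = (Real.exp 1 * V.card * q) * (Y.card * Δ) := by ring
        _ ≤ (Real.exp 1 * V.card * q) * (2 * t') := by gcongr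
        _ = 2 * Real.exp 1 * V.card * q * t' := by ring
    calc (Real.exp 1 * (incs Y V).card * q / t') ^ t' ≤ x ^ t' :=
          pow_le_pow_left₀ (by positivity) h5 _
      _ ≤ x ^ t := pow_le_pow_of_le_one hx0 hx1 ht1
  refine (Finset.sum_le_sum h2).trans ?_
  simp [Finset.card_powerset]

end Pool.Agent.Helper96
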