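import Mathlib
import Pool.Agent.Helper96.Pairs

set_option autoImplicit false
set_option linter.unusedSectionVars false
set_option linter.unusedVariables false
open Classical Finset

namespace Pool.Agent.Helper96

/-- reachability inside `N` -/
def Rch (adj : ℕ → ℕ → Prop) (N : Finset ℕ) (x y : ℕ) : Prop :=
  Relation.ReflTransGen (fun a b => adj a b ∧ b ∈ N) x y

section
variable {adj : ℕ → ℕ → Prop} {N : Finset ℕ}

theorem Rch.trans {x y z : ℕ} (h1 : Rch adj N x y) (h2 : Rch adj N y z) : Rch adj N x z :=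
  Relation.ReflTransGen.trans h1 h2

theorem Rch.refl (x : ℕ) : Rch adj N x x := Relation.ReflTransGen.refl

theorem Rch.mem {x y : ℕ} (hx : x ∈ N) (h : Rch adj N x y) : y ∈ N := by
  induction h with
  | refl => exact hx
  | tail _ hbc _ => exact hbc.2

theorem Rch.symm (hs : ∀ a b, adj a b → adj b a) {x y : ℕ} (hx : x ∈ N) (h : Rch adj N x y) :
    Rch adj N y x := by
  induction h with
  | refl => exact Rch.refl _
  | @tail b c hb hbc ih =>
    have hbN : b ∈ N := Rch.mem hx hb
    exact (Relation.ReflTransGen.single ⟨hs _ _ hbc.1, hbN⟩ : Rch adj N c b).trans ih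

theorem Rch.mono {N' : Finset ℕ} (hN : N ⊆ N') {x y : ℕ} (h : Rch adj N x y) :
    Rch adj N' x y :=
  reach_mono (fun a b hab => ⟨hab.1, hN hab.2⟩) h

end

/-- component of `z` in `N` -/
noncomputable def cmp (adj : ℕ → ℕ → Prop) (N : Finset ℕ) (z : ℕ) : Finset ℕ :=
  N.filter (fun y => Rch adj N z y)

/-- the majority component of `N` (empty if there is none) -/
noncomputable def Maj (adj : ℕ → ℕ → Prop) (N : Finset ℕ) : Finset ℕ :=
  N.filter (fun z => N.card < 2 * (cmp adj N z).card)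

section
variable {adj : ℕ → ℕ → Prop} {N : Finset ℕ}

theorem mem_cmp {z y : ℕ} : y ∈ cmp adj N z ↔ y ∈ N ∧ Rch adj N z y := by
  unfold cmp; rw [Finset.mem_filter]

theorem cmp_subset (z : ℕ) : cmp adj N z ⊆ N := Finset.filter_subset _ _

theorem cmp_closed {z x y : ℕ} (hx : x ∈ cmp adj N z) (hy : y ∈ N) (h : adj x y) :
    y ∈ cmp adj N z := by
  rw [mem_cmp] at *
  exact ⟨hy, Relation.ReflTransGen.tail hx.2 ⟨h, hy⟩⟩

theorem cmp_eq (hs : ∀ a b, adj a b → adj b a) {z y : ℕ} (hz : z ∈ N) (hy : y ∈ cmp adj N z) :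
    cmp adj N y = cmp adj N z := by
  rw [mem_cmp] at hy
  ext w
  rw [mem_cmp, mem_cmp]
  constructor
  · rintro ⟨h1, h2⟩; exact ⟨h1, hy.2.trans h2⟩
  · rintro ⟨h1, h2⟩; exact ⟨h1, (hy.2.symm hs hz).trans h2⟩

theorem Maj_subset : Maj adj N ⊆ N := Finset.filter_subset _ _

theorem Maj_rch (hs : ∀ a b, adj a b → adj b a) {x y : ℕ} (hx : x ∈ Maj adj N)
    (hy : y ∈ Maj adj N) : Rch adj N x y := by
  unfold Maj at hx hy
  rw [Finset.mem_filter] at hx hy
  have hint : (cmp adj N x ∩ cmp adj N y).Nonempty := by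
    by_contra hcon
    rw [Finset.not_nonempty_iff_eq_empty] at hcon
    have h1 : (cmp adj N x ∪ cmp adj N y).card ≤ N.card :=
      Finset.card_le_card (Finset.union_subset (cmp_subset _) (cmp_subset _))
    have h2 : (cmp adj N x ∪ cmp adj N y).card = (cmp adj N x).card + (cmp adj N y).card := by
      rw [Finset.card_union_of_disjoint]
      rw [Finset.disjoint_iff_inter_eq_empty]
      exact hcon
    omega
  obtain ⟨w, hw⟩ := hint
  rw [Finset.mem_inter, mem_cmp, mem_cmp] at hw
  exact hw.1.2.trans (hw.2.2.symm hs hy.1)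

/-- `X` is closed under adjacency in `N` and has at most three quarters of the vertices -/
def SmallClosed (adj : ℕ → ℕ → Prop) (N X : Finset ℕ) : Prop :=
  (∀ x ∈ X, ∀ y ∈ N, adj x y → y ∈ X) ∧ 4 * X.card ≤ 3 * N.card

/-- If `N` has no balanced cut, then it has a component with more than three quarters of the
vertices. -/
theorem giant_of_no_cut (hs : ∀ a b, adj a b → adj b a) (hN : N.Nonempty)
    (hcut : ∀ X, X ⊆ N → N.card ≤ 4 * X.card → N.card ≤ 4 * (N \ X).card →
      ∃ x ∈ X, ∃ y ∈ N \ X, adj x y) :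
    ∃ z ∈ N, 3 * N.card < 4 * (cmp adj N z).card := by
  by_contra hcon
  push Not at hcon
  have hclosed : ∀ X, X ⊆ N → (∀ x ∈ X, ∀ y ∈ N, adj x y → y ∈ X) → 4 * X.card ≤ 3 * N.card →
      4 * X.card < N.card := by
    intro X hX hcl hXc
    by_contra hge
    push Not at hge
    have hc := Finset.card_sdiff_add_card_eq_card hX
    obtain ⟨x, hx, y, hy, hxy⟩ := hcut X hX hge (by omega)
    rw [Finset.mem_sdiff] at hy
    exact hy.2 (hcl x hx y hy.1 hxy)
  -- a maximal closed set
  set 𝒳 := N.powerset.filter (SmallClosed adj N) with h𝒳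
  have hne : 𝒳.Nonempty := by
    refine ⟨∅, ?_⟩
    rw [h𝒳, Finset.mem_filter, Finset.mem_powerset]
    exact ⟨Finset.empty_subset _, by simp, by simp⟩
  obtain ⟨X, hX, hmax⟩ := Finset.exists_max_image 𝒳 Finset.card hne
  rw [h𝒳, Finset.mem_filter, Finset.mem_powerset] at hX
  obtain ⟨hXN, hXcl, hXc⟩ := hX
  have hXs := hclosed X hXN hXcl hXc
  have hssub : X ⊂ N := by
    refine Finset.ssubset_iff_subset_ne.mpr ⟨hXN, ?_⟩
    rintro rfl
    omega
  obtain ⟨z, hzN, hzX⟩ := Finset.exists_of_ssubset hssub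
  have hcz := hcon z hzN
  have hccl : ∀ x ∈ cmp adj N z, ∀ y ∈ N, adj x y → y ∈ cmp adj N z := by
    intro x hx y hy h
    exact cmp_closed hx hy h
  have hzc : z ∈ cmp adj N z := by
    rw [mem_cmp]; exact ⟨hzN, Rch.refl _⟩
  have hcN := hclosed (cmp adj N z) (cmp_subset z) hccl hcz
  have hU : X ∪ cmp adj N z ∈ 𝒳 := by
    rw [h𝒳, Finset.mem_filter, Finset.mem_powerset]
    refine ⟨Finset.union_subset hXN (cmp_subset z), ?_, ?_⟩
    · intro x hx y hy h
      rw [Finset.mem_union] at hx ⊢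
      rcases hx with hx | hx
      · exact Or.inl (hXcl x hx y hy h)
      · exact Or.inr (hccl x hx y hy h)
    · have := Finset.card_union_le X (cmp adj N z)
      omega
  have h1 := hmax _ hU
  have h2 : X.card < (X ∪ cmp adj N z).card := by
    apply Finset.card_lt_card
    rw [Finset.ssubset_iff_of_subset Finset.subset_union_left]
    exact ⟨z, Finset.mem_union_right _ hzc, hzX⟩
  omega

theorem card_Maj_of_giant (hs : ∀ a b, adj a b → adj b a) {z : ℕ} (hz : z ∈ N)
    (h : 3 * N.card < 4 * (cmp adj N z).card) : cmp adj N z ⊆ Maj adj N := by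
  intro y hy
  unfold Maj
  rw [Finset.mem_filter]
  refine ⟨cmp_subset z hy, ?_⟩
  rw [cmp_eq hs hz hy]
  omega

/-- attaching a vertex to a giant component -/
theorem mem_Maj_insert (hs : ∀ a b, adj a b → adj b a) {z w x : ℕ} (hw : w ∈ N)
    (h : 3 * N.card < 4 * (cmp adj N w).card) (hx : x ∈ cmp adj N w) (hzx : adj z x)
    (hzN : z ∉ N) : z ∈ Maj adj (insert z N) := by
  unfold Maj
  rw [Finset.mem_filter]
  refine ⟨Finset.mem_insert_self _ _, ?_⟩
  have hsub : insert z (cmp adj N w) ⊆ cmp adj (insert z N) z := by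
    intro y hy
    rw [mem_cmp]
    rw [Finset.mem_insert] at hy
    rcases hy with rfl | hy
    · exact ⟨Finset.mem_insert_self _ _, Rch.refl _⟩
    · refine ⟨Finset.mem_insert_of_mem (cmp_subset w hy), ?_⟩
      have h1 : Rch adj (insert z N) z x :=
        Relation.ReflTransGen.single ⟨hzx, Finset.mem_insert_of_mem (cmp_subset w hx)⟩
      have h2 : Rch adj N x y := by
        have := (mem_cmp.mp hx).2.symm hs hw
        exact this.trans (mem_cmp.mp hy).2
      exact h1.trans (h2.mono (Finset.subset_insert z N))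
  have h1 := Finset.card_le_card hsub
  rw [Finset.card_insert_of_notMem (fun h' => hzN (cmp_subset w h'))] at h1
  rw [Finset.card_insert_of_notMem hzN]
  omega

/-- connectivity from the absence of cuts -/
theorem connected_of_no_cut (hs : ∀ a b, adj a b → adj b a)
    (hcut : ∀ X, X ⊆ N → X.Nonempty → 2 * X.card ≤ N.card → ∃ x ∈ X, ∃ y ∈ N \ X, adj x y)
    {a b : ℕ} (ha : a ∈ N) (hb : b ∈ N) : Rch adj N a b := by
  by_contra hcon
  have hac : a ∈ cmp adj N a := by rw [mem_cmp]; exact ⟨ha, Rch.refl _⟩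
  have hbc : b ∈ N \ cmp adj N a := by
    rw [Finset.mem_sdiff, mem_cmp]
    exact ⟨hb, fun h => hcon h.2⟩
  have hc := Finset.card_sdiff_add_card_eq_card (cmp_subset (adj := adj) (N := N) a)
  rcases le_or_gt (2 * (cmp adj N a).card) N.card with h | h
  · obtain ⟨x, hx, y, hy, hxy⟩ := hcut _ (cmp_subset a) ⟨a, hac⟩ h
    rw [Finset.mem_sdiff] at hy
    exact hy.2 (cmp_closed hx hy.1 hxy)
  · obtain ⟨x, hx, y, hy, hxy⟩ := hcut (N \ cmp adj N a) Finset.sdiff_subset ⟨b, hbc⟩ (by omega)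
    rw [Finset.mem_sdiff] at hx hy
    have hyc : y ∈ cmp adj N a := by
      by_contra hcon'
      exact hy.2 (Finset.mem_sdiff.mpr ⟨hy.1, hcon'⟩)
    exact hx.2 (cmp_closed hyc hx.1 (hs _ _ hxy))

end

end Pool.Agent.Helper96
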