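import Mathlib
import Pool.Agent.Helper96.Comp

set_option autoImplicit false
set_option linter.unusedSectionVars false
set_option linter.unusedVariables false
open Classical Finset

namespace Pool.Agent.Helper96

/-- relations closed under the dynamics on `[0,n)` -/
structure ClosedRel (n : ℕ) (E : Finset (Sym2 ℕ)) (Rel : ℕ → ℕ → Prop) : Prop where
  path : ∀ i, i + 1 < n → Rel i (i + 1)
  symm : ∀ i j, Rel i j → Rel j i
  step : ∀ x y z, x < n → z < n → Rel x y → Rel y z → x ≠ z → s(x, z) ∈ E → Rel x z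

/-- open adjacency -/
def adjO (G : Finset (Sym2 ℕ)) (x y : ℕ) : Prop := s(x, y) ∈ G

theorem adjO_symm (G : Finset (Sym2 ℕ)) (x y : ℕ) (h : adjO G x y) : adjO G y x := by
  unfold adjO at *; rwa [Sym2.eq_swap]

/-- the majority cluster of `v` in `K` -/
noncomputable def Cc (E : Finset (Sym2 ℕ)) (K : Finset ℕ) (v : ℕ) : Finset ℕ :=
  Maj (adjO (E ∩ prs K)) (nbr E K v)

theorem Cc_subset (E : Finset (Sym2 ℕ)) (K : Finset ℕ) (v : ℕ) : Cc E K v ⊆ nbr E K v := Maj_subset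

/-- the link event at `v` -/
def Lnk (C : ℕ → Finset ℕ) (E : Finset (Sym2 ℕ)) (K₂ : Finset ℕ) (v₀ v : ℕ) : Prop :=
  ∃ w ∈ K₂, s(v - 1, w) ∈ E ∧ s(v, w) ∈ E ∧ (v = v₀ ∨ ∃ x ∈ C (v - 1), s(w, x) ∈ E) ∧
    ∃ y ∈ C v, s(w, y) ∈ E

/-- good adjacency on `L` -/
def gadj (C : ℕ → Finset ℕ) (E : Finset (Sym2 ℕ)) (x y : ℕ) : Prop :=
  s(x, y) ∈ E ∧ ¬ Disjoint (C x) (C y)

theorem gadj_symm (C : ℕ → Finset ℕ) (E : Finset (Sym2 ℕ)) (x y : ℕ) (h : gadj C E x y) :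
    gadj C E y x := by
  unfold gadj at *
  refine ⟨by rw [Sym2.eq_swap]; exact h.1, fun h' => h.2 h'.symm⟩

/-- the cluster function is compatible with the open pairs -/
structure GoodC (C : ℕ → Finset ℕ) (E : Finset (Sym2 ℕ)) (K : Finset ℕ) : Prop where
  sub : ∀ v, C v ⊆ nbr E K v
  conn : ∀ v, ∀ x ∈ C v, ∀ y ∈ C v, Rch (adjO (E ∩ prs K)) (nbr E K v) x y

theorem GoodC_Cc {E F : Finset (Sym2 ℕ)} {K : Finset ℕ} (h : F ⊆ E) :
    GoodC (Cc F K) E K := by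
  have h1 : ∀ v, nbr F K v ⊆ nbr E K v := by
    intro v x hx
    rw [mem_nbr] at *
    exact ⟨hx.1, h hx.2⟩
  constructor
  · intro v x hx
    exact h1 v (Cc_subset _ _ _ hx)
  · intro v x hx y hy
    have := Maj_rch (adjO_symm _) hx hy
    refine reach_mono ?_ this
    intro a b hab
    refine ⟨?_, h1 v hab.2⟩
    have h2 : s(a, b) ∈ F ∩ prs K := hab.1
    rw [Finset.mem_inter] at h2
    exact Finset.mem_inter.mpr ⟨h h2.1, h2.2⟩

section
variable {n : ℕ} {E : Finset (Sym2 ℕ)} {Rel : ℕ → ℕ → Prop}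

/-- hub -/
theorem hub_rel (hR : ClosedRel n E Rel) {c m : ℕ} (hm : c + m < n) (hm0 : 0 < m)
    (hstar : ∀ w ∈ Finset.Ico (c + 1) (c + m + 1), s(c, w) ∈ E) :
    ∀ w ∈ Finset.Ico (c + 1) (c + m + 1), Rel c w := by
  intro w hw
  rw [Finset.mem_Ico] at hw
  obtain ⟨j, rfl⟩ : ∃ j, w = c + 1 + j := ⟨w - (c + 1), by omega⟩
  induction j with
  | zero => exact hR.path c (by omega)
  | succ j ih =>
    have h1 := ih (by omega)
    have h2 : Rel (c + 1 + j) (c + 1 + (j + 1)) := hR.path (c + 1 + j) (by omega)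
    exact hR.step _ _ _ (by omega) (by omega) h1 h2 (by omega)
      (hstar _ (by rw [Finset.mem_Ico]; omega))

theorem core_rel (hR : ClosedRel n E Rel) (hE : E ⊆ prs (Finset.Ico 0 n)) {c m : ℕ}
    (hm : c + m < n) (hm0 : 0 < m)
    (hstar : ∀ w ∈ Finset.Ico (c + 1) (c + m + 1), s(c, w) ∈ E) {x y : ℕ}
    (hx : x ∈ Finset.Ico (c + 1) (c + m + 1)) (hy : y ∈ Finset.Ico (c + 1) (c + m + 1))
    (hxy : s(x, y) ∈ E) : Rel x y := by
  have h1 := hub_rel hR hm hm0 hstar x hx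
  have h2 := hub_rel hR hm hm0 hstar y hy
  have h3 := mem_prs.mp (hE hxy)
  rw [Finset.mem_Ico, Finset.mem_Ico] at h3
  exact hR.step _ _ _ h3.1.2 h3.2.1.2 (hR.symm _ _ h1) h2 h3.2.2 hxy

/-- all majority clusters get linked -/
theorem link_rel (hR : ClosedRel n E Rel) (hE : E ⊆ prs (Finset.Ico 0 n)) {K₂ K₁ : Finset ℕ}
    {C : ℕ → Finset ℕ} (hC : GoodC C E K₁) {v₀ l : ℕ} (hv₀ : 0 < v₀) (hv₀K : v₀ - 1 ∈ K₁) (hn : v₀ + l ≤ n)
    (hcore : ∀ x ∈ K₂ ∪ K₁, ∀ y ∈ K₂ ∪ K₁, s(x, y) ∈ E → Rel x y)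
    (hl : ∀ v ∈ Finset.Ico v₀ (v₀ + l), Lnk C E K₂ v₀ v) :
    ∀ v ∈ Finset.Ico v₀ (v₀ + l), ∀ x ∈ C v, Rel v x := by
  have hlt : ∀ x y, s(x, y) ∈ E → x < n ∧ y < n ∧ x ≠ y := by
    intro x y h
    have h3 := mem_prs.mp (hE h)
    rw [Finset.mem_Ico, Finset.mem_Ico] at h3
    exact ⟨h3.1.2, h3.2.1.2, h3.2.2⟩
  intro v hv
  rw [Finset.mem_Ico] at hv
  obtain ⟨j, rfl⟩ : ∃ j, v = v₀ + j := ⟨v - v₀, by omega⟩
  induction j with
  | zero =>
    obtain ⟨w, hw, h1, h2, _, y, hy, h3⟩ := hl (v₀ + 0) (by rw [Finset.mem_Ico]; omega)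
    have hyK : y ∈ K₁ := (mem_nbr.mp (hC.sub _ hy)).1
    have r1 : Rel (v₀ - 1) w := hcore _ (Finset.mem_union_right _ hv₀K) _
      (Finset.mem_union_left _ hw) h1
    have r2 : Rel (v₀ - 1) (v₀ + 0) := by
      have := hR.path (v₀ - 1) (by omega)
      rwa [show v₀ - 1 + 1 = v₀ + 0 by omega] at this
    have r3 : Rel (v₀ + 0) w := hR.step _ _ _ (hlt _ _ h2).1 (hlt _ _ h2).2.1
      (hR.symm _ _ r2) r1 (hlt _ _ h2).2.2 h2
    have r4 : Rel w y := hcore _ (Finset.mem_union_left _ hw) _ (Finset.mem_union_right _ hyK) h3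
    have hvy := (mem_nbr.mp (hC.sub _ hy)).2
    have r5 : Rel (v₀ + 0) y := hR.step _ _ _ (hlt _ _ hvy).1 (hlt _ _ hvy).2.1 r3 r4
      (hlt _ _ hvy).2.2 hvy
    intro x hx
    have hreach := hC.conn _ _ hy _ hx
    clear hx
    induction hreach with
    | refl => exact r5
    | @tail a b hab hbc ih =>
      have hob : s(a, b) ∈ E ∩ prs K₁ := hbc.1
      rw [Finset.mem_inter, mem_prs] at hob
      have hbN := (mem_nbr.mp hbc.2).2
      exact hR.step _ _ _ (hlt _ _ hbN).1 (hlt _ _ hbN).2.1 ih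
        (hcore _ (Finset.mem_union_right _ hob.2.1) _ (Finset.mem_union_right _ hob.2.2.1) hob.1)
        (hlt _ _ hbN).2.2 hbN
  | succ j ih =>
    have ih' := ih (by omega)
    obtain ⟨w, hw, h1, h2, hx', y, hy, h3⟩ := hl (v₀ + (j + 1)) (by rw [Finset.mem_Ico]; omega)
    have hyK : y ∈ K₁ := (mem_nbr.mp (hC.sub _ hy)).1
    have hpred : v₀ + (j + 1) - 1 = v₀ + j := by omega
    rw [hpred] at h1 hx'
    rcases hx' with hx' | ⟨x, hx, hwx⟩
    · omega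
    have hxK : x ∈ K₁ := (mem_nbr.mp (hC.sub _ hx)).1
    have rx : Rel (v₀ + j) x := ih' x hx
    have rwx : Rel w x := hcore _ (Finset.mem_union_left _ hw) _ (Finset.mem_union_right _ hxK) hwx
    have r1 : Rel (v₀ + j) w := hR.step _ _ _ (hlt _ _ h1).1 (hlt _ _ h1).2.1 rx
      (hR.symm _ _ rwx) (hlt _ _ h1).2.2 h1
    have r2 : Rel (v₀ + j) (v₀ + (j + 1)) := hR.path (v₀ + j) (by omega)
    have r3 : Rel (v₀ + (j + 1)) w := hR.step _ _ _ (hlt _ _ h2).1 (hlt _ _ h2).2.1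
      (hR.symm _ _ r2) r1 (hlt _ _ h2).2.2 h2
    have r4 : Rel w y := hcore _ (Finset.mem_union_left _ hw) _ (Finset.mem_union_right _ hyK) h3
    have hvy := (mem_nbr.mp (hC.sub _ hy)).2
    have r5 : Rel (v₀ + (j + 1)) y := hR.step _ _ _ (hlt _ _ hvy).1 (hlt _ _ hvy).2.1 r3 r4
      (hlt _ _ hvy).2.2 hvy
    intro x hx
    have hreach := hC.conn _ _ hy _ hx
    clear hx
    induction hreach with
    | refl => exact r5
    | @tail a b hab hbc ih =>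
      have hob : s(a, b) ∈ E ∩ prs K₁ := hbc.1
      rw [Finset.mem_inter, mem_prs] at hob
      have hbN := (mem_nbr.mp hbc.2).2
      exact hR.step _ _ _ (hlt _ _ hbN).1 (hlt _ _ hbN).2.1 ih
        (hcore _ (Finset.mem_union_right _ hob.2.1) _ (Finset.mem_union_right _ hob.2.2.1) hob.1)
        (hlt _ _ hbN).2.2 hbN

/-- The level two event for `R = [u, u + r)` with base `Λ`. -/
structure Lev2 (C : ℕ → Finset ℕ) (E : Finset (Sym2 ℕ)) (Λ : Finset ℕ) (u r : ℕ) : Prop where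
  c1 : ∀ v ∈ Finset.Ico u (u + r), ∀ a ∈ nbr E Λ v, ∀ b ∈ nbr E Λ v,
    Rch (gadj C E) (nbr E Λ v) a b
  c2 : ∀ v ∈ Finset.Ico u (u + r), ∀ v' ∈ Finset.Ico u (u + r), v ≠ v' →
    ∃ w ∈ Λ, s(v, w) ∈ E ∧ s(v', w) ∈ E
  c3 : ∃ w ∈ Λ, s(u, w) ∈ E ∧ gadj C E (u - 1) w

theorem level2_rel (hR : ClosedRel n E Rel) (hE : E ⊆ prs (Finset.Ico 0 n)) {Λ : Finset ℕ}
    {C : ℕ → Finset ℕ} {u r : ℕ} (hu : 0 < u) (hn : u + r ≤ n) (hr : 0 < r)
    (hLC : ∀ v ∈ insert (u - 1) Λ, ∀ x ∈ C v, Rel v x)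
    (h2 : Lev2 C E Λ u r) :
    ∀ x ∈ Finset.Ico u (u + r), ∀ y ∈ Finset.Ico u (u + r), x ≠ y →
      ∃ w, Rel x w ∧ Rel w y := by
  have hlt : ∀ x y, s(x, y) ∈ E → x < n ∧ y < n ∧ x ≠ y := by
    intro x y h
    have h3 := mem_prs.mp (hE h)
    rw [Finset.mem_Ico, Finset.mem_Ico] at h3
    exact ⟨h3.1.2, h3.2.1.2, h3.2.2⟩
  -- good open pairs in Λ are occupied
  have hgood : ∀ x ∈ insert (u - 1) Λ, ∀ y ∈ insert (u - 1) Λ, gadj C E x y → Rel x y := by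
    intro x hx y hy hg
    obtain ⟨ho, hd⟩ := hg
    rw [Finset.not_disjoint_iff] at hd
    obtain ⟨z, hz1, hz2⟩ := hd
    exact hR.step _ _ _ (hlt _ _ ho).1 (hlt _ _ ho).2.1 (hLC x hx z hz1)
      (hR.symm _ _ (hLC y hy z hz2)) (hlt _ _ ho).2.2 ho
  -- spreading inside the neighbourhood
  have hspread : ∀ v ∈ Finset.Ico u (u + r), (∃ w ∈ nbr E Λ v, Rel v w) →
      ∀ w ∈ nbr E Λ v, Rel v w := by
    intro v hv hex w hw
    obtain ⟨w₀, hw₀, hr₀⟩ := hex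
    have hreach := h2.c1 v hv w₀ hw₀ w hw
    clear hw
    have key : ∀ z, Rch (gadj C E) (nbr E Λ v) w₀ z → z ∈ nbr E Λ v ∧ Rel v z := by
      intro z hz
      induction hz with
      | refl => exact ⟨hw₀, hr₀⟩
      | @tail a b hab hbc ih =>
        have ha := (mem_nbr.mp ih.1).1
        have hb := mem_nbr.mp hbc.2
        refine ⟨hbc.2, ?_⟩
        exact hR.step _ _ _ (hlt _ _ hb.2).1 (hlt _ _ hb.2).2.1 ih.2
          (hgood _ (Finset.mem_insert_of_mem ha) _ (Finset.mem_insert_of_mem hb.1) hbc.1)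
          (hlt _ _ hb.2).2.2 hb.2
    exact (key w hreach).2
  have hall : ∀ j, j < r → ∀ w ∈ nbr E Λ (u + j), Rel (u + j) w := by
    intro j
    induction j with
    | zero =>
      intro hj
      apply hspread _ (by rw [Finset.mem_Ico]; omega)
      obtain ⟨w, hw, h1, h3⟩ := h2.c3
      refine ⟨w, mem_nbr.mpr ⟨hw, h1⟩, ?_⟩
      have r1 : Rel (u - 1) w := hgood _ (Finset.mem_insert_self _ _) _
        (Finset.mem_insert_of_mem hw) h3
      have r2 : Rel (u - 1) (u + 0) := by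
        have := hR.path (u - 1) (by omega)
        rwa [show u - 1 + 1 = u + 0 by omega] at this
      exact hR.step _ _ _ (hlt _ _ h1).1 (hlt _ _ h1).2.1 (hR.symm _ _ r2) r1
        (hlt _ _ h1).2.2 h1
    | succ j ih =>
      intro hj
      apply hspread _ (by rw [Finset.mem_Ico]; omega)
      obtain ⟨w, hw, h1, h3⟩ := h2.c2 (u + j) (by rw [Finset.mem_Ico]; omega) (u + (j + 1))
        (by rw [Finset.mem_Ico]; omega) (by omega)
      refine ⟨w, mem_nbr.mpr ⟨hw, h3⟩, ?_⟩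
      have r1 : Rel (u + j) w := ih (by omega) w (mem_nbr.mpr ⟨hw, h1⟩)
      have r2 : Rel (u + j) (u + (j + 1)) := hR.path (u + j) (by omega)
      exact hR.step _ _ _ (hlt _ _ h3).1 (hlt _ _ h3).2.1 (hR.symm _ _ r2) r1
        (hlt _ _ h3).2.2 h3
  intro x hx y hy hxy
  have hx' := Finset.mem_Ico.mp hx
  have hy' := Finset.mem_Ico.mp hy
  obtain ⟨w, hw, h1, h3⟩ := h2.c2 x hx y hy hxy
  have r1 : Rel x w := by
    have := hall (x - u) (by omega) w
    rw [show u + (x - u) = x by omega] at this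
    exact this (mem_nbr.mpr ⟨hw, h1⟩)
  have r2 : Rel y w := by
    have := hall (y - u) (by omega) w
    rw [show u + (y - u) = y by omega] at this
    exact this (mem_nbr.mpr ⟨hw, h3⟩)
  exact ⟨w, r1, hR.symm _ _ r2⟩

/-- every three distinct vertices have a common open neighbour in `R` -/
def Tri (n : ℕ) (E : Finset (Sym2 ℕ)) (R : Finset ℕ) : Prop :=
  ∀ x < n, ∀ y < n, ∀ z < n, x ≠ y → x ≠ z → y ≠ z →
    ∃ w ∈ R, s(x, w) ∈ E ∧ s(y, w) ∈ E ∧ s(z, w) ∈ E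

theorem level3_rel (hR : ClosedRel n E Rel) (hE : E ⊆ prs (Finset.Ico 0 n))
    {u r : ℕ} (hn : u + r ≤ n) (hr : 2 ≤ r)
    (hRR : ∀ x ∈ Finset.Ico u (u + r), ∀ y ∈ Finset.Ico u (u + r), s(x, y) ∈ E → Rel x y)
    (hT : Tri n E (Finset.Ico u (u + r))) (hn3 : 3 ≤ n) :
    ∀ x y, s(x, y) ∈ E → Rel x y := by
  have hlt : ∀ x y, s(x, y) ∈ E → x < n ∧ y < n ∧ x ≠ y := by
    intro x y h
    have h3 := mem_prs.mp (hE h)
    rw [Finset.mem_Ico, Finset.mem_Ico] at h3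
    exact ⟨h3.1.2, h3.2.1.2, h3.2.2⟩
  set R := Finset.Ico u (u + r) with hRdef
  -- spreading: one occupied neighbour in R gives all
  have hspread : ∀ v, v < n → (∃ w ∈ R, s(v, w) ∈ E ∧ Rel v w) → ∀ w ∈ R, s(v, w) ∈ E → Rel v w := by
    intro v hv hex w hw hvw
    obtain ⟨w₀, hw₀, h1, h2⟩ := hex
    by_cases hww : w = w₀
    · rw [hww]; exact h2
    obtain ⟨z, hz, h3, h4, h5⟩ := hT v hv w₀ (hlt _ _ h1).2.1 w (hlt _ _ hvw).2.1
      (hlt _ _ h1).2.2 (hlt _ _ hvw).2.2 (Ne.symm hww)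
    have r1 : Rel w₀ z := hRR _ hw₀ _ hz h4
    have r2 : Rel v z := hR.step _ _ _ (hlt _ _ h3).1 (hlt _ _ h3).2.1 h2 r1 (hlt _ _ h3).2.2 h3
    have r3 : Rel w z := hRR _ hw _ hz h5
    exact hR.step _ _ _ (hlt _ _ hvw).1 (hlt _ _ hvw).2.1 r2 (hR.symm _ _ r3) (hlt _ _ hvw).2.2 hvw
  -- two adjacent vertices have a common neighbour in R
  have hcommon : ∀ v v', v < n → v' < n → v ≠ v' → ∃ w ∈ R, s(v, w) ∈ E ∧ s(v', w) ∈ E := by
    intro v v' hv hv' hne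
    have : ∃ z < n, z ≠ v ∧ z ≠ v' := by
      by_contra hcon
      push Not at hcon
      have h0 := hcon 0 (by omega)
      have h1 := hcon 1 (by omega)
      have h2 := hcon 2 (by omega)
      omega
    obtain ⟨z, hz, hz1, hz2⟩ := this
    obtain ⟨w, hw, h1, h2, _⟩ := hT v hv v' hv' z hz hne hz1.symm hz2.symm
    exact ⟨w, hw, h1, h2⟩
  -- transfer between consecutive vertices
  have htrans : ∀ v v', v < n → v' < n → v ≠ v' → Rel v v' →
      (∀ w ∈ R, s(v, w) ∈ E → Rel v w) → (∀ w ∈ R, s(v', w) ∈ E → Rel v' w) := by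
    intro v v' hv hv' hne hrel hall
    apply hspread v' hv'
    obtain ⟨w, hw, h1, h2⟩ := hcommon v v' hv hv' hne
    refine ⟨w, hw, h2, ?_⟩
    exact hR.step _ _ _ (hlt _ _ h2).1 (hlt _ _ h2).2.1 (hR.symm _ _ hrel) (hall w hw h1)
      (hlt _ _ h2).2.2 h2
  have hup : ∀ j, u + j < n → ∀ w ∈ R, s(u + j, w) ∈ E → Rel (u + j) w := by
    intro j
    induction j with
    | zero =>
      intro _ w hw h
      exact hRR _ (by rw [hRdef, Finset.mem_Ico]; omega) _ hw h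
    | succ j ih =>
      intro hj
      exact htrans (u + j) (u + (j + 1)) (by omega) hj (by omega) (hR.path _ (by omega))
        (ih (by omega))
  have hdown : ∀ j, j ≤ u → ∀ w ∈ R, s(u - j, w) ∈ E → Rel (u - j) w := by
    intro j
    induction j with
    | zero =>
      intro _ w hw h
      exact hRR _ (by rw [hRdef, Finset.mem_Ico]; omega) _ hw h
    | succ j ih =>
      intro hj
      apply htrans (u - j) (u - (j + 1)) (by omega) (by omega) (by omega) _ (ih (by omega))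
      have := hR.path (u - (j + 1)) (by omega)
      rw [show u - (j + 1) + 1 = u - j by omega] at this
      exact hR.symm _ _ this
  have hall : ∀ v, v < n → ∀ w ∈ R, s(v, w) ∈ E → Rel v w := by
    intro v hv
    rcases le_or_gt u v with h | h
    · have := hup (v - u) (by omega)
      rwa [show u + (v - u) = v by omega] at this
    · have := hdown (u - v) (by omega)
      rwa [show u - (u - v) = v by omega] at this
  intro x y hxy
  obtain ⟨hx, hy, hne⟩ := hlt _ _ hxy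
  obtain ⟨w, hw, h1, h2⟩ := hcommon x y hx hy hne
  exact hR.step _ _ _ hx hy (hall x hx w hw h1) (hR.symm _ _ (hall y hy w hw h2)) hne hxy

end

end Pool.Agent.Helper96
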