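import Mathlib
import Pool.Agent.Helper96.UpperDet

set_option autoImplicit false
set_option linter.unusedSectionVars false
set_option linter.unusedVariables false
open Classical Finset

namespace Pool.Agent.Helper96

section
variable {α : Type*} [DecidableEq α] {q : ℝ} {U : Finset α}

/-- monotone coupling -/
theorem Pr_mono_q {q' : ℝ} (h0 : 0 ≤ q) (hqq : q ≤ q') (h1 : q' ≤ 1) (A : Finset α → Prop)
    (hA : ∀ E E', E ⊆ E' → E' ⊆ U → A E → A E') : Pr U q A ≤ Pr U q' A := by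
  induction U using Finset.induction_on generalizing A with
  | empty => simp [Pr, Ex_empty]
  | insert a U ha ih =>
    rw [Pr_insert ha, Pr_insert ha]
    have hU : U ⊆ insert a U := Finset.subset_insert a U
    have i1 := ih A (fun E E' h h' => hA E E' h (h'.trans hU))
    have i2 := ih (fun E => A (insert a E)) (fun E E' h h' =>
      hA _ _ (Finset.insert_subset_insert a h) (Finset.insert_subset_insert a h'))
    have i3 : Pr U q A ≤ Pr U q (fun E => A (insert a E)) :=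
      Pr_mono h0 (hqq.trans h1) (fun E hE h =>
        hA E _ (Finset.subset_insert a E) (Finset.insert_subset_insert a hE) h)
    nlinarith

theorem one_sub_pow_le_exp {x : ℝ} (h1 : x ≤ 1) (k : ℕ) :
    (1 - x) ^ k ≤ Real.exp (-(x * k)) := by
  have h2 : 1 - x ≤ Real.exp (-x) := by
    have := Real.add_one_le_exp (-x)
    linarith
  calc (1 - x) ^ k ≤ (Real.exp (-x)) ^ k := pow_le_pow_left₀ (by linarith) h2 k
    _ = Real.exp (-(x * k)) := by rw [← Real.exp_nat_mul]; congr 1; ring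

theorem Pr_none {ι : Type*} (h0 : 0 ≤ q) (h1 : q ≤ 1) (T : Finset ι) (V : ι → Finset α) (j : ℕ)
    (hV : ∀ i ∈ T, V i ⊆ U) (hd : ∀ i ∈ T, ∀ i' ∈ T, i ≠ i' → Disjoint (V i) (V i'))
    (hc : ∀ i ∈ T, (V i).card ≤ j) :
    Pr U q (fun E => ∀ i ∈ T, ¬ V i ⊆ E) ≤ Real.exp (-(q ^ j * T.card)) := by
  rw [Pr_forall_indep T V hV hd (fun i E => ¬ V i ⊆ E)]
  · have h2 : ∀ i ∈ T, Pr (V i) q (fun E => ¬ V i ⊆ E) ≤ Real.exp (-(q ^ j)) := by
      intro i hi
      rw [Pr_not, Pr_subset (Finset.Subset.refl _)]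
      have h3 : q ^ j ≤ q ^ (V i).card := pow_le_pow_of_le_one h0 h1 (hc i hi)
      have := Real.add_one_le_exp (-(q ^ j))
      linarith
    calc ∏ i ∈ T, Pr (V i) q (fun E => ¬ V i ⊆ E) ≤ ∏ i ∈ T, Real.exp (-(q ^ j)) :=
          Finset.prod_le_prod (fun i _ => Pr_nonneg h0 h1 _) h2
      _ = Real.exp (-(q ^ j * T.card)) := by
          rw [Finset.prod_const, ← Real.exp_nat_mul]; congr 1; ring
  · intro i hi E hE
    apply not_congr
    constructor
    · intro h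
      exact Finset.subset_inter h (Finset.Subset.refl _)
    · intro h
      exact h.trans Finset.inter_subset_left

/-- Fubini with explicit restrictions -/
theorem Pr_fubini {U₁ U₂ : Finset α} (hd : Disjoint U₁ U₂) (A : Finset α → Finset α → Prop) :
    Pr (U₁ ∪ U₂) q (fun E => A (E ∩ U₁) (E ∩ U₂))
      = Ex U₁ q (fun E₁ => Pr U₂ q (fun E₂ => A E₁ E₂)) := by
  rw [Pr_union hd]
  apply Ex_congr
  intro E₁ hE₁
  apply Pr_congr
  intro E₂ hE₂
  have h1 : (E₁ ∪ E₂) ∩ U₁ = E₁ := by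
    rw [Finset.union_inter_distrib_right, Finset.inter_eq_left.mpr hE₁,
      Finset.disjoint_iff_inter_eq_empty.mp (Finset.disjoint_of_subset_left hE₂ hd.symm),
      Finset.union_empty]
  have h2 : (E₁ ∪ E₂) ∩ U₂ = E₂ := by
    rw [Finset.union_inter_distrib_right, Finset.inter_eq_left.mpr hE₂,
      Finset.disjoint_iff_inter_eq_empty.mp (Finset.disjoint_of_subset_left hE₁ hd),
      Finset.empty_union]
  rw [h1, h2]

theorem Pr_fubini' {U₁ U₂ : Finset α} (hd : Disjoint U₁ U₂) (hU : U₁ ∪ U₂ ⊆ U)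
    (A : Finset α → Finset α → Prop) :
    Pr U q (fun E => A (E ∩ U₁) (E ∩ U₂))
      = Ex U₁ q (fun E₁ => Pr U₂ q (fun E₂ => A E₁ E₂)) := by
  rw [← Pr_fubini hd A, Pr_marg hU]
  intro E _
  have h1 : E ∩ (U₁ ∪ U₂) ∩ U₁ = E ∩ U₁ := by
    rw [Finset.inter_assoc, Finset.inter_eq_right.mpr Finset.subset_union_left]
  have h2 : E ∩ (U₁ ∪ U₂) ∩ U₂ = E ∩ U₂ := by
    rw [Finset.inter_assoc, Finset.inter_eq_right.mpr Finset.subset_union_right]
  rw [h1, h2]

theorem Pr_split_le {U₁ U₂ : Finset α} (h0 : 0 ≤ q) (h1 : q ≤ 1) (hd : Disjoint U₁ U₂)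
    (hU : U₁ ∪ U₂ ⊆ U) (A : Finset α → Prop) (B : Finset α → Finset α → Prop) (b : ℝ)
    (hAB : ∀ E, E ⊆ U → A E → B (E ∩ U₁) (E ∩ U₂))
    (hB : ∀ E₁, E₁ ⊆ U₁ → Pr U₂ q (B E₁) ≤ b) : Pr U q A ≤ b := by
  refine (Pr_mono h0 h1 hAB).trans ?_
  rw [Pr_fubini' hd hU B]
  refine (Ex_mono h0 h1 (g := fun _ => b) hB).trans ?_
  rw [Ex_const]

theorem Pr_split_ge {U₁ U₂ : Finset α} (h0 : 0 ≤ q) (h1 : q ≤ 1) (hd : Disjoint U₁ U₂)
    (hU : U₁ ∪ U₂ ⊆ U) (A : Finset α → Prop) (B : Finset α → Finset α → Prop)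
    (T : Finset α → Prop) (b : ℝ) (hAB : ∀ E, E ⊆ U → B (E ∩ U₁) (E ∩ U₂) → A E)
    (hB : ∀ E₁, E₁ ⊆ U₁ → T E₁ → b ≤ Pr U₂ q (B E₁)) : b * Pr U₁ q T ≤ Pr U q A := by
  refine le_trans ?_ (Pr_mono h0 h1 hAB)
  rw [Pr_fubini' hd hU B]
  unfold Pr
  rw [← Ex_const_mul]
  apply Ex_mono h0 h1
  intro E hE
  by_cases hT : T E
  · simp only [hT, if_true, mul_one]
    exact hB E hE hT
  · simp only [hT, if_false, mul_zero]
    exact Pr_nonneg h0 h1 _

/-- exponentials against powers of one half -/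
theorem exp_neg_le_half_pow (n : ℕ) : Real.exp (-(n:ℝ)) ≤ (1/2 : ℝ) ^ n := by
  have h : Real.exp (-1) ≤ 1/2 := by
    have h1 : (2:ℝ) ≤ Real.exp 1 := by
      have := Real.add_one_le_exp (1:ℝ)
      linarith
    rw [Real.exp_neg, one_div]
    exact inv_anti₀ (by norm_num) h1
  calc Real.exp (-(n:ℝ)) = (Real.exp (-1)) ^ n := by
        rw [← Real.exp_nat_mul]; congr 1; ring
    _ ≤ (1/2 : ℝ) ^ n := pow_le_pow_left₀ (Real.exp_pos _).le h n

theorem exp_neg_le_half_pow' {x : ℝ} (n : ℕ) (h : (n:ℝ) ≤ x) : Real.exp (-x) ≤ (1/2 : ℝ) ^ n :=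
  (Real.exp_le_exp.mpr (by linarith)).trans (exp_neg_le_half_pow n)

end

/-- the pairs coming from a set of ordered pairs -/
noncomputable def crs (Z : Finset (ℕ × ℕ)) : Finset (Sym2 ℕ) := Z.image (fun p => s(p.1, p.2))

theorem mem_crs {Z : Finset (ℕ × ℕ)} {x y : ℕ} (h : (x, y) ∈ Z) : s(x, y) ∈ crs Z := by
  unfold crs
  exact Finset.mem_image_of_mem _ h

theorem card_crs {Z : Finset (ℕ × ℕ)} {X Y : Finset ℕ} (hZ : Z ⊆ X ×ˢ Y) (hd : Disjoint X Y) :
    (crs Z).card = Z.card := by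
  unfold crs
  apply Finset.card_image_of_injOn
  intro p hp p' hp' h
  have h1 := hZ hp
  have h2 := hZ hp'
  rw [Finset.mem_product] at h1 h2
  simp only at h
  rw [Sym2.eq_iff] at h
  rcases h with ⟨h3, h4⟩ | ⟨h3, h4⟩
  · exact Prod.ext h3 h4
  · exact absurd h2.2 (fun h5 => (Finset.disjoint_left.mp hd h1.1) (h3 ▸ h5))

theorem crs_subset {Z : Finset (ℕ × ℕ)} {X Y V : Finset ℕ} (hZ : Z ⊆ X ×ˢ Y) (hd : Disjoint X Y)
    (hX : X ⊆ V) (hY : Y ⊆ V) : crs Z ⊆ prs V := by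
  intro e he
  unfold crs at he
  rw [Finset.mem_image] at he
  obtain ⟨p, hp, rfl⟩ := he
  have h1 := hZ hp
  rw [Finset.mem_product] at h1
  rw [mem_prs]
  exact ⟨hX h1.1, hY h1.2, fun h => Finset.disjoint_left.mp hd h1.1 (h ▸ h1.2)⟩

/-- random graphs have a giant component -/
theorem Pr_no_giant {q : ℝ} (h0 : 0 ≤ q) (h1 : q ≤ 1) (T : Finset ℕ) (hT : 10 ≤ q * T.card) :
    Pr (prs T) q (fun E => ¬ ∃ z ∈ T, 3 * T.card < 4 * (cmp (adjO E) T z).card)
      ≤ Real.exp (-(T.card:ℝ)) := by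
  have hTne : T.Nonempty := by
    by_contra hcon
    rw [Finset.not_nonempty_iff_eq_empty] at hcon
    subst hcon
    norm_num at hT
  set S := T.powerset.filter (fun X => T.card ≤ 4 * X.card ∧ T.card ≤ 4 * (T \ X).card) with hS
  have hstep : Pr (prs T) q (fun E => ¬ ∃ z ∈ T, 3 * T.card < 4 * (cmp (adjO E) T z).card)
      ≤ Pr (prs T) q (fun E => ∃ X ∈ S, Disjoint (crs (X ×ˢ (T \ X))) E) := by
    apply Pr_mono h0 h1
    intro E _ hE
    by_contra hcon
    apply hE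
    apply giant_of_no_cut (adjO_symm E) hTne
    intro X hX hc1 hc2
    push Not at hcon
    have h2 := hcon X (by rw [hS, Finset.mem_filter, Finset.mem_powerset]; exact ⟨hX, hc1, hc2⟩)
    rw [Finset.not_disjoint_iff] at h2
    obtain ⟨e, he1, he2⟩ := h2
    unfold crs at he1
    rw [Finset.mem_image] at he1
    obtain ⟨p, hp, rfl⟩ := he1
    rw [Finset.mem_product] at hp
    exact ⟨p.1, hp.1, p.2, hp.2, he2⟩
  refine hstep.trans ((Pr_exists_le h0 h1 _ _).trans ?_)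
  have hbound : ∀ X ∈ S, Pr (prs T) q (fun E => Disjoint (crs (X ×ˢ (T \ X))) E)
      ≤ Real.exp (-(q * (3 * (T.card:ℝ)^2 / 16))) := by
    intro X hX
    rw [hS, Finset.mem_filter, Finset.mem_powerset] at hX
    obtain ⟨hX1, hX2, hX3⟩ := hX
    have hd : Disjoint X (T \ X) := Finset.disjoint_sdiff
    rw [Pr_disjoint (crs_subset (Finset.Subset.refl _) hd hX1 Finset.sdiff_subset),
      card_crs (Finset.Subset.refl _) hd, Finset.card_product]
    refine (one_sub_pow_le_exp h1 _).trans ?_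
    apply Real.exp_le_exp.mpr
    apply neg_le_neg
    apply mul_le_mul_of_nonneg_left _ h0
    have hc := Finset.card_sdiff_add_card_eq_card hX1
    have e1 : (T.card:ℝ) = (T \ X).card + X.card := by exact_mod_cast hc.symm
    have e2 : (T.card:ℝ) ≤ 4 * X.card := by exact_mod_cast hX2
    have e3 : (T.card:ℝ) ≤ 4 * (T \ X).card := by exact_mod_cast hX3
    push_cast
    nlinarith
  calc ∑ X ∈ S, Pr (prs T) q (fun E => Disjoint (crs (X ×ˢ (T \ X))) E)
      ≤ ∑ X ∈ S, Real.exp (-(q * (3 * (T.card:ℝ)^2 / 16))) := Finset.sum_le_sum hbound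
    _ = S.card * Real.exp (-(q * (3 * (T.card:ℝ)^2 / 16))) := by
        rw [Finset.sum_const, nsmul_eq_mul]
    _ ≤ 2 ^ T.card * Real.exp (-(q * (3 * (T.card:ℝ)^2 / 16))) := by
        apply mul_le_mul_of_nonneg_right _ (Real.exp_pos _).le
        have : S.card ≤ 2 ^ T.card := by
          rw [← Finset.card_powerset]
          exact Finset.card_filter_le _ _
        exact_mod_cast this
    _ ≤ Real.exp (T.card * (Real.log 2)) * Real.exp (-(q * (3 * (T.card:ℝ)^2 / 16))) := by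
        apply mul_le_mul_of_nonneg_right _ (Real.exp_pos _).le
        rw [mul_comm, Real.exp_mul, Real.exp_log (by norm_num), Real.rpow_natCast]
    _ ≤ Real.exp (-(T.card:ℝ)) := by
        rw [← Real.exp_add]
        apply Real.exp_le_exp.mpr
        have hl : Real.log 2 < 0.6931471808 := Real.log_two_lt_d9
        have hTc : (0:ℝ) ≤ T.card := by positivity
        nlinarith

end Pool.Agent.Helper96
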