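import Mathlib
import Pool.Agent.Helper96.Prob3

set_option autoImplicit false
set_option linter.unusedSectionVars false
set_option linter.unusedVariables false
open Classical Finset

namespace Pool.Agent.Helper96

theorem mem_inc_self {v w : ℕ} {K : Finset ℕ} (h : w ∈ K) : s(v, w) ∈ inc v K :=
  mem_inc.mpr (Or.inl ⟨rfl, h⟩)

theorem nbr_inter {E U : Finset (Sym2 ℕ)} {K : Finset ℕ} {v : ℕ} (h : inc v K ⊆ U) :
    nbr (E ∩ U) K v = nbr E K v := by
  ext w
  rw [mem_nbr, mem_nbr, Finset.mem_inter]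
  constructor
  · rintro ⟨h1, h2, h3⟩; exact ⟨h1, h2⟩
  · rintro ⟨h1, h2⟩; exact ⟨h1, h2, h (mem_inc_self h1)⟩

theorem inc_mono {v : ℕ} {K K' : Finset ℕ} (h : K ⊆ K') : inc v K ⊆ inc v K' := by
  unfold inc
  exact Finset.image_subset_image h

theorem disjoint_inc_prs {v : ℕ} {K T : Finset ℕ} (hv : v ∉ K) : Disjoint (inc v T) (prs K) := by
  rw [Finset.disjoint_left]
  intro e
  induction e using Sym2.ind with
  | _ x y =>
    rw [mem_inc, mem_prs]
    rintro (⟨rfl, h⟩ | ⟨rfl, h⟩) ⟨h1, h2, h3⟩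
    · exact hv h1
    · exact hv h2

theorem disjoint_inc_inc {v v' : ℕ} {T T' : Finset ℕ} (hne : v ≠ v') (h : v ∉ T') :
    Disjoint (inc v T) (inc v' T') := by
  rw [Finset.disjoint_left]
  intro e
  induction e using Sym2.ind with
  | _ x y =>
    rw [mem_inc, mem_inc]
    rintro (⟨rfl, h1⟩ | ⟨rfl, h1⟩) (⟨rfl, h2⟩ | ⟨rfl, h2⟩)
    · exact hne rfl
    · exact h h2
    · exact h h2
    · exact hne rfl

theorem Rch_inter {F : Finset (Sym2 ℕ)} {K N : Finset ℕ} (hF : F ⊆ prs K) {z y : ℕ} (hz : z ∈ N) :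
    Rch (adjO F) N z y ↔ Rch (adjO (F ∩ prs N)) N z y := by
  constructor
  · intro h
    induction h with
    | refl => exact Rch.refl _
    | @tail b c hb hbc ih =>
      refine Relation.ReflTransGen.tail ih ⟨?_, hbc.2⟩
      have h1 : s(b, c) ∈ F := hbc.1
      have hbN : b ∈ N := Rch.mem hz hb
      exact Finset.mem_inter.mpr ⟨h1, mem_prs.mpr ⟨hbN, hbc.2, (mem_prs.mp (hF h1)).2.2⟩⟩
  · intro h
    refine reach_mono ?_ h
    intro a b hab
    exact ⟨(Finset.mem_inter.mp (hab.1 : s(a, b) ∈ F ∩ prs N)).1, hab.2⟩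

theorem cmp_inter {F : Finset (Sym2 ℕ)} {K N : Finset ℕ} (hF : F ⊆ prs K) {z : ℕ} (hz : z ∈ N) :
    cmp (adjO F) N z = cmp (adjO (F ∩ prs N)) N z := by
  ext y
  rw [mem_cmp, mem_cmp, Rch_inter hF hz]

/-- existence of a giant component in `N` -/
def Gnt (F : Finset (Sym2 ℕ)) (N : Finset ℕ) : Prop :=
  ∃ z ∈ N, 3 * N.card < 4 * (cmp (adjO F) N z).card

theorem Pr_no_giant' {q : ℝ} (h0 : 0 ≤ q) (h1 : q ≤ 1) (K N : Finset ℕ) (hN : N ⊆ K)
    (hT : 10 ≤ q * N.card) :
    Pr (prs K) q (fun E => ¬ Gnt E N) ≤ Real.exp (-(N.card:ℝ)) := by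
  have hsub : prs N ⊆ prs K := prs_mono hN
  rw [Pr_marg hsub]
  · exact Pr_no_giant h0 h1 N hT
  · intro E hE
    apply not_congr
    unfold Gnt
    apply exists_congr; intro z
    constructor
    · rintro ⟨hz, h⟩
      rw [cmp_inter hE hz] at h
      exact ⟨hz, h⟩
    · rintro ⟨hz, h⟩
      rw [← cmp_inter hE hz] at h
      exact ⟨hz, h⟩

theorem Gnt_card_Maj {F : Finset (Sym2 ℕ)} {N : Finset ℕ} (h : Gnt F N) :
    3 * N.card < 4 * (Maj (adjO F) N).card := by
  obtain ⟨z, hz, h⟩ := h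
  have := Finset.card_le_card (card_Maj_of_giant (adjO_symm F) hz h)
  omega

/-- many neighbours, but no giant component -/
theorem Pr_nbr_no_giant {q : ℝ} (h0 : 0 < q) (h1 : q ≤ 1) (K : Finset ℕ) (v : ℕ) (hv : v ∉ K)
    {U : Finset (Sym2 ℕ)} (hU : inc v K ∪ prs K ⊆ U) (hK : 20 ≤ q ^ 2 * K.card) :
    Pr U q (fun E => q * K.card / 2 < (nbr E K v).card ∧ ¬ Gnt (E ∩ prs K) (nbr E K v))
      ≤ Real.exp (-(q * K.card / 2)) := by
  refine Pr_split_le h0.le h1 (disjoint_inc_prs hv) hU _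
    (fun E₁ E₂ => q * K.card / 2 < (nbr E₁ K v).card ∧ ¬ Gnt E₂ (nbr E₁ K v)) _ ?_ ?_
  · intro E _ h
    rw [nbr_inter (Finset.Subset.refl _)]
    exact h
  · intro E₁ _
    by_cases h : q * K.card / 2 < (nbr E₁ K v).card
    · have h2 : Pr (prs K) q (fun E₂ => q * K.card / 2 < (nbr E₁ K v).card ∧
          ¬ Gnt E₂ (nbr E₁ K v)) ≤ Pr (prs K) q (fun E₂ => ¬ Gnt E₂ (nbr E₁ K v)) := by
        apply Pr_mono h0.le h1
        intro E _ h; exact h.2
      refine h2.trans ((Pr_no_giant' h0.le h1 K (nbr E₁ K v) (Finset.filter_subset _ _) ?_).trans ?_)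
      · nlinarith
      · apply Real.exp_le_exp.mpr
        linarith
    · simp only [h, false_and]
      rw [Pr_false]
      exact (Real.exp_pos _).le

theorem Pr_nbr_small {q : ℝ} (h0 : 0 ≤ q) (h1 : q ≤ 1) (K : Finset ℕ) (v : ℕ)
    {U : Finset (Sym2 ℕ)} (hU : inc v K ⊆ U) :
    Pr U q (fun E => ((nbr E K v).card : ℝ) ≤ q * K.card / 2) ≤ Real.exp (-(q * K.card / 8)) := by
  have h := Pr_card_le h0 h1 hU
  rw [card_inc] at h
  simpa only [card_inter_inc] using h

theorem Pr_Cc_small {q : ℝ} (h0 : 0 < q) (h1 : q ≤ 1) (K : Finset ℕ) (v : ℕ) (hv : v ∉ K)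
    {U : Finset (Sym2 ℕ)} (hU : inc v K ∪ prs K ⊆ U) (hK : 20 ≤ q ^ 2 * K.card) :
    Pr U q (fun E => ((Cc E K v).card : ℝ) ≤ q * K.card / 4)
      ≤ 2 * Real.exp (-(q * K.card / 8)) := by
  have hstep : Pr U q (fun E => ((Cc E K v).card : ℝ) ≤ q * K.card / 4)
      ≤ Pr U q (fun E => ((nbr E K v).card : ℝ) ≤ q * K.card / 2 ∨
        (q * K.card / 2 < (nbr E K v).card ∧ ¬ Gnt (E ∩ prs K) (nbr E K v))) := by
    apply Pr_mono h0.le h1
    intro E _ h
    by_contra hcon
    push Not at hcon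
    obtain ⟨hc1, hc2⟩ := hcon
    have hg := Gnt_card_Maj (hc2 hc1)
    have hg' : (3:ℝ) * (nbr E K v).card < 4 * (Cc E K v).card := by
      unfold Cc
      exact_mod_cast hg
    have : 0 ≤ q * K.card := by positivity
    linarith
  refine hstep.trans ((Pr_or_le h0.le h1 _ _).trans ?_)
  have e1 := Pr_nbr_small h0.le h1 K v (Finset.subset_union_left.trans hU)
  have e2 := Pr_nbr_no_giant h0 h1 K v hv hU hK
  have e3 : Real.exp (-(q * K.card / 2)) ≤ Real.exp (-(q * K.card / 8)) := by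
    apply Real.exp_le_exp.mpr
    have : 0 ≤ q * K.card := by positivity
    linarith
  linarith

/-- a neighbour of `v` is missing from the majority cluster -/
theorem Pr_Cc_miss {q : ℝ} (h0 : 0 < q) (h1 : q ≤ 1) (K : Finset ℕ) (v z : ℕ) (hv : v ∉ K)
    (hz : z ∈ K) {U : Finset (Sym2 ℕ)} (hU : inc v K ∪ prs K ⊆ U)
    (hK : 20 ≤ q ^ 2 * (K.erase z).card) :
    Pr U q (fun E => s(v, z) ∈ E ∧ z ∉ Cc E K v)
      ≤ q * (2 * Real.exp (-(q * (K.erase z).card / 8))
        + Real.exp (-(q * (3 * (q * (K.erase z).card) / 8)))) := by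
  set K' := K.erase z with hK'
  have hK'K : K' ⊆ K := Finset.erase_subset _ _
  have hzK' : z ∉ K' := Finset.notMem_erase z K
  have hvK' : v ∉ K' := fun h => hv (hK'K h)
  have hvz : v ≠ z := fun h => hv (h ▸ hz)
  have hinc : inc v K' ⊆ U := (inc_mono hK'K).trans (Finset.subset_union_left.trans hU)
  have hprs : prs K' ⊆ U := (prs_mono hK'K).trans (Finset.subset_union_right.trans hU)
  have hincz : inc z K' ⊆ prs K := inc_subset_prs hz hK'K hzK'
  have hincz' : inc z K' ⊆ U := hincz.trans (Finset.subset_union_right.trans hU)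
  set U' := (inc v K' ∪ prs K') ∪ inc z K' with hU'
  have hU'U : U' ⊆ U := Finset.union_subset (Finset.union_subset hinc hprs) hincz'
  set Bad : Finset (Sym2 ℕ) → Prop := fun E =>
    (((nbr E K' v).card : ℝ) ≤ q * K'.card / 2 ∨
      (q * K'.card / 2 < (nbr E K' v).card ∧ ¬ Gnt (E ∩ prs K') (nbr E K' v))) ∨
      (3 * (q * K'.card) / 8 ≤ (Maj (adjO (E ∩ prs K')) (nbr E K' v)).card ∧
        Disjoint (inc z (Maj (adjO (E ∩ prs K')) (nbr E K' v))) E) with hBad
  have hMK' : ∀ E, Maj (adjO (E ∩ prs K')) (nbr E K' v) ⊆ K' := fun E =>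
    Maj_subset.trans (Finset.filter_subset _ _)
  have hstep : Pr U q (fun E => s(v, z) ∈ E ∧ z ∉ Cc E K v)
      ≤ Pr U q (fun E => {s(v, z)} ⊆ E ∧ Bad E) := by
    apply Pr_mono h0.le h1
    intro E _ ⟨hvzE, hzC⟩
    refine ⟨Finset.singleton_subset_iff.mpr hvzE, ?_⟩
    by_contra hcon
    rw [hBad] at hcon
    simp only at hcon
    push Not at hcon
    obtain ⟨⟨hc1, hc2⟩, hc3⟩ := hcon
    have hg := hc2 hc1
    have hcardg := Gnt_card_Maj hg
    have hcardg' : (3:ℝ) * (nbr E K' v).card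
        < 4 * (Maj (adjO (E ∩ prs K')) (nbr E K' v)).card := by exact_mod_cast hcardg
    have hnd := hc3 (by
      have : 0 ≤ q * K'.card := by positivity
      linarith)
    rw [Finset.not_disjoint_iff] at hnd
    obtain ⟨e, he1, he2⟩ := hnd
    unfold inc at he1
    rw [Finset.mem_image] at he1
    obtain ⟨x, hx, rfl⟩ := he1
    obtain ⟨w, hw, hwc⟩ := hg
    have hxK' := hMK' E hx
    -- x lies in the component of w
    have hwM : w ∈ Maj (adjO (E ∩ prs K')) (nbr E K' v) :=
      card_Maj_of_giant (adjO_symm _) hw hwc (mem_cmp.mpr ⟨hw, Rch.refl _⟩)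
    have hrch := Maj_rch (adjO_symm _) hwM hx
    have hmonoR : ∀ a b, Rch (adjO (E ∩ prs K')) (nbr E K' v) a b →
        Rch (adjO (E ∩ prs K)) (nbr E K' v) a b := by
      intro a b h
      refine reach_mono ?_ h
      intro c d hcd
      refine ⟨?_, hcd.2⟩
      have h3 := Finset.mem_inter.mp (hcd.1 : s(c, d) ∈ E ∩ prs K')
      exact Finset.mem_inter.mpr ⟨h3.1, prs_mono hK'K h3.2⟩
    have hcmp : cmp (adjO (E ∩ prs K')) (nbr E K' v) w ⊆ cmp (adjO (E ∩ prs K)) (nbr E K' v) w := by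
      intro y hy
      rw [mem_cmp] at *
      exact ⟨hy.1, hmonoR _ _ hy.2⟩
    have hbig : 3 * (nbr E K' v).card < 4 * (cmp (adjO (E ∩ prs K)) (nbr E K' v) w).card := by
      have := Finset.card_le_card hcmp
      omega
    have hins : nbr E K v = insert z (nbr E K' v) := by
      ext y
      rw [Finset.mem_insert, mem_nbr, mem_nbr, hK', Finset.mem_erase]
      constructor
      · rintro ⟨h1, h2⟩
        by_cases hyz : y = z
        · exact Or.inl hyz
        · exact Or.inr ⟨⟨hyz, h1⟩, h2⟩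
      · rintro (rfl | ⟨⟨h1, h2⟩, h3⟩)
        · exact ⟨hz, hvzE⟩
        · exact ⟨h2, h3⟩
    apply hzC
    unfold Cc
    rw [hins]
    apply mem_Maj_insert (adjO_symm _) hw hbig (x := x)
    · rw [mem_cmp]
      exact ⟨Maj_subset hx, hmonoR _ _ hrch⟩
    · change s(z, x) ∈ E ∩ prs K
      exact Finset.mem_inter.mpr ⟨he2, mem_prs.mpr ⟨hz, hK'K hxK', fun h => hzK' (h ▸ hxK')⟩⟩
    · rw [mem_nbr]
      exact fun h => hzK' h.1
  refine hstep.trans ?_
  have hdisj : Disjoint ({s(v, z)} : Finset (Sym2 ℕ)) U' := by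
    rw [Finset.disjoint_singleton_left, hU', Finset.mem_union, Finset.mem_union, mem_inc, mem_prs,
      mem_inc]
    intro h
    rcases h with ((h | h) | h) | (h | h)
    · exact hzK' h.2
    · exact hvz h.1.symm
    · exact hvK' h.1
    · exact hvz h.1
    · exact hvK' h.2
  have hvzU : {s(v, z)} ⊆ U := by
    rw [Finset.singleton_subset_iff]
    exact hU (Finset.mem_union_left _ (mem_inc_self hz))
  have hBadloc : ∀ E, E ⊆ U → (Bad E ↔ Bad (E ∩ U')) := by
    intro E _
    have e1 : nbr (E ∩ U') K' v = nbr E K' v :=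
      nbr_inter (Finset.subset_union_left.trans Finset.subset_union_left)
    have e2 : E ∩ U' ∩ prs K' = E ∩ prs K' := by
      rw [Finset.inter_assoc, Finset.inter_eq_right.mpr
        (Finset.subset_union_right.trans Finset.subset_union_left)]
    rw [hBad]
    simp only [e1, e2]
    apply or_congr_right
    apply and_congr_right
    intro _
    rw [Finset.disjoint_left, Finset.disjoint_left]
    constructor
    · intro h e he he'
      exact h he (Finset.mem_inter.mp he').1
    · intro h e he he'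
      exact h he (Finset.mem_inter.mpr ⟨he', Finset.mem_union_right _
        (inc_mono (hMK' E) he)⟩)
  rw [Pr_and_indep hdisj (Finset.union_subset hvzU hU'U) (fun E => {s(v, z)} ⊆ E) Bad
    (by
      intro E _
      constructor
      · intro h; exact Finset.subset_inter h (Finset.Subset.refl _)
      · intro h; exact h.trans Finset.inter_subset_left) hBadloc,
    Pr_subset (Finset.Subset.refl _), Finset.card_singleton, pow_one]
  apply mul_le_mul_of_nonneg_left _ h0.le
  rw [hBad]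
  refine (Pr_or_le h0.le h1 _ _).trans ?_
  apply add_le_add
  · refine (Pr_or_le h0.le h1 _ _).trans ?_
    have e1 := Pr_nbr_small h0.le h1 K' v (U := U')
      (Finset.subset_union_left.trans Finset.subset_union_left)
    have e2 := Pr_nbr_no_giant h0 h1 K' v hvK' (U := U') Finset.subset_union_left hK
    have e3 : Real.exp (-(q * K'.card / 2)) ≤ Real.exp (-(q * K'.card / 8)) := by
      apply Real.exp_le_exp.mpr
      have : 0 ≤ q * K'.card := by positivity
      linarith
    linarith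
  · have hd2 : Disjoint (inc v K' ∪ prs K') (inc z K') := by
      rw [Finset.disjoint_union_left]
      exact ⟨disjoint_inc_inc hvz hvK', (disjoint_inc_prs hzK').symm⟩
    refine Pr_split_le h0.le h1 hd2 (Finset.Subset.refl _) _
      (fun E₁ E₂ => 3 * (q * K'.card) / 8 ≤ (Maj (adjO (E₁ ∩ prs K')) (nbr E₁ K' v)).card ∧
        Disjoint (inc z (Maj (adjO (E₁ ∩ prs K')) (nbr E₁ K' v))) E₂) _ ?_ ?_
    · intro E _ h
      have e1 : nbr (E ∩ (inc v K' ∪ prs K')) K' v = nbr E K' v :=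
        nbr_inter Finset.subset_union_left
      have e2 : E ∩ (inc v K' ∪ prs K') ∩ prs K' = E ∩ prs K' := by
        rw [Finset.inter_assoc, Finset.inter_eq_right.mpr Finset.subset_union_right]
      rw [e1, e2]
      exact ⟨h.1, Finset.disjoint_of_subset_right Finset.inter_subset_left h.2⟩
    · intro E₁ _
      set G := Maj (adjO (E₁ ∩ prs K')) (nbr E₁ K' v) with hG
      by_cases h : 3 * (q * K'.card) / 8 ≤ G.card
      · have h2 : Pr (inc z K') q (fun E₂ => 3 * (q * K'.card) / 8 ≤ G.card ∧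
            Disjoint (inc z G) E₂) ≤ Pr (inc z K') q (fun E₂ => Disjoint (inc z G) E₂) := by
          apply Pr_mono h0.le h1
          intro E _ h; exact h.2
        refine h2.trans ?_
        rw [Pr_disjoint (inc_mono (hMK' E₁)), card_inc]
        refine (one_sub_pow_le_exp h1 _).trans ?_
        apply Real.exp_le_exp.mpr
        apply neg_le_neg
        exact mul_le_mul_of_nonneg_left h h0.le
      · simp only [h, false_and]
        rw [Pr_false]
        exact (Real.exp_pos _).le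

end Pool.Agent.Helper96
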