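import Mathlib
import Pool.Agent.Helper96.Clus

set_option autoImplicit false
set_option linter.unusedSectionVars false
set_option linter.unusedVariables false
open Classical Finset

namespace Pool.Agent.Helper96

/-- if each of many events is rare, then rarely many of them happen -/
theorem Pr_many {α ι : Type*} [DecidableEq α] {U : Finset α} {q : ℝ} (h0 : 0 ≤ q) (h1 : q ≤ 1)
    (S : Finset ι) (hS : S.Nonempty) (A : ι → Finset α → Prop) {p c : ℝ} (hc : 0 < c)
    (hp : ∀ i ∈ S, Pr U q (A i) ≤ p) :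
    Pr U q (fun E => c * S.card ≤ (S.filter (fun i => A i E)).card) ≤ p / c := by
  have hSc : (0:ℝ) < S.card := by exact_mod_cast hS.card_pos
  refine (Pr_markov h0 h1 (fun E => ((S.filter (fun i => A i E)).card : ℝ))
    (fun E _ => by positivity) (mul_pos hc hSc)).trans ?_
  have h2 : Ex U q (fun E => ((S.filter (fun i => A i E)).card : ℝ)) = ∑ i ∈ S, Pr U q (A i) := by
    unfold Pr
    rw [← Ex_sum]
    apply Ex_congr
    intro E _
    rw [Finset.card_filter]
    push_cast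
    rfl
  rw [h2, div_le_div_iff₀ (mul_pos hc hSc) hc]
  have h3 : ∑ i ∈ S, Pr U q (A i) ≤ S.card * p := by
    calc ∑ i ∈ S, Pr U q (A i) ≤ ∑ i ∈ S, p := Finset.sum_le_sum hp
      _ = S.card * p := by rw [Finset.sum_const, nsmul_eq_mul]
  nlinarith

theorem Pr_Cc_miss' {q : ℝ} (h0 : 0 < q) (hq : q ≤ 1 / 3) (K : Finset ℕ) (v z : ℕ) (hv : v ∉ K)
    (hz : z ∈ K) {U : Finset (Sym2 ℕ)} (hU : inc v K ∪ prs K ⊆ U)
    (hK : q ^ 2 * K.card = 64) :
    Pr U q (fun E => s(v, z) ∈ E ∧ z ∉ Cc E K v) ≤ q * (3 * (1/2) ^ 23) := by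
  have hcard : ((K.erase z).card : ℝ) = K.card - 1 := by
    rw [Finset.card_erase_of_mem hz, Nat.cast_sub (Finset.card_pos.mpr ⟨z, hz⟩)]
    norm_num
  have hq1 : q ^ 2 ≤ 1 := by nlinarith
  have hK2 : 63 ≤ q ^ 2 * (K.erase z).card := by
    rw [hcard]
    nlinarith
  refine (Pr_Cc_miss h0 (by linarith) K v z hv hz hU (by linarith)).trans ?_
  apply mul_le_mul_of_nonneg_left _ h0.le
  have hc0 : (0:ℝ) ≤ (K.erase z).card := by positivity
  have e1 : Real.exp (-(q * (K.erase z).card / 8)) ≤ (1/2) ^ 23 := by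
    apply exp_neg_le_half_pow'
    push_cast
    have : q ^ 2 * (K.erase z).card ≤ (1/3) * (q * (K.erase z).card) := by
      have : 0 ≤ q * (K.erase z).card := by positivity
      nlinarith
    linarith
  have e2 : Real.exp (-(q * (3 * (q * (K.erase z).card) / 8))) ≤ (1/2) ^ 23 := by
    apply exp_neg_le_half_pow'
    push_cast
    nlinarith
  linarith

theorem Pr_Cc_disj {q : ℝ} (h0 : 0 < q) (hq : q ≤ 1 / 3) (K : Finset ℕ) (x y : ℕ) (hx : x ∉ K)
    (hy : y ∉ K) (hxy : x ≠ y) {U : Finset (Sym2 ℕ)} (hUx : inc x K ∪ prs K ⊆ U)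
    (hUy : inc y K ∪ prs K ⊆ U) (hK : q ^ 2 * K.card = 64) :
    Pr U q (fun E => Disjoint (Cc E K x) (Cc E K y)) ≤ (1/2) ^ 13 := by
  have h1 : q ≤ 1 := by linarith
  set V : ℕ → Finset (Sym2 ℕ) := fun z => {s(x, z), s(y, z)} with hV
  have hstep : Pr U q (fun E => Disjoint (Cc E K x) (Cc E K y))
      ≤ Pr U q (fun E => (∀ z ∈ K, ¬ V z ⊆ E) ∨
        (∃ z ∈ K, {s(y, z)} ⊆ E ∧ (s(x, z) ∈ E ∧ z ∉ Cc E K x)) ∨
        (∃ z ∈ K, {s(x, z)} ⊆ E ∧ (s(y, z) ∈ E ∧ z ∉ Cc E K y))) := by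
    apply Pr_mono h0.le h1
    intro E _ hd
    by_contra hcon
    push Not at hcon
    obtain ⟨⟨z, hz, hVz⟩, hc1, hc2⟩ := hcon
    have hxz : s(x, z) ∈ E := hVz (by rw [hV]; simp)
    have hyz : s(y, z) ∈ E := hVz (by rw [hV]; simp)
    have h3 := hc1 z hz (Finset.singleton_subset_iff.mpr hyz) hxz
    have h4 := hc2 z hz (Finset.singleton_subset_iff.mpr hxz) hyz
    exact Finset.disjoint_left.mp hd h3 h4
  refine hstep.trans ((Pr_or_le h0.le h1 _ _).trans ?_)
  have hVU : ∀ z ∈ K, V z ⊆ U := by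
    intro z hz e he
    rw [hV] at he
    simp only [Finset.mem_insert, Finset.mem_singleton] at he
    rcases he with rfl | rfl
    · exact hUx (Finset.mem_union_left _ (mem_inc_self hz))
    · exact hUy (Finset.mem_union_left _ (mem_inc_self hz))
  have t1 : Pr U q (fun E => ∀ z ∈ K, ¬ V z ⊆ E) ≤ (1/2) ^ 64 := by
    refine (Pr_none h0.le h1 K V 2 hVU ?_ ?_).trans ?_
    · intro z hz z' hz' hne
      rw [Finset.disjoint_left]
      intro e he he'
      rw [hV] at he he'
      simp only [Finset.mem_insert, Finset.mem_singleton] at he he'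
      rcases he with rfl | rfl <;> rcases he' with h | h <;> rw [Sym2.eq_iff] at h <;>
        rcases h with ⟨h3, h4⟩ | ⟨h3, h4⟩
      · exact hne h4
      · exact hx (h3 ▸ hz')
      · exact hxy h3
      · exact hx (h3 ▸ hz')
      · exact hxy h3.symm
      · exact hy (h3 ▸ hz')
      · exact hne h4
      · exact hy (h3 ▸ hz')
    · intro z _
      exact Finset.card_le_two
    · apply exp_neg_le_half_pow'
      push_cast
      linarith
  have key : ∀ a b, a ∉ K → b ∉ K → a ≠ b → inc a K ∪ prs K ⊆ U → inc b K ∪ prs K ⊆ U →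
      Pr U q (fun E => ∃ z ∈ K, {s(b, z)} ⊆ E ∧ (s(a, z) ∈ E ∧ z ∉ Cc E K a))
        ≤ 64 * (3 * (1/2) ^ 23) := by
    intro a b ha hb hab hUa hUb
    refine (Pr_exists_le h0.le h1 _ _).trans ?_
    have hterm : ∀ z ∈ K, Pr U q (fun E => {s(b, z)} ⊆ E ∧ (s(a, z) ∈ E ∧ z ∉ Cc E K a))
        ≤ q * (q * (3 * (1/2) ^ 23)) := by
      intro z hz
      have hdisj : Disjoint ({s(b, z)} : Finset (Sym2 ℕ)) (inc a K ∪ prs K) := by
        rw [Finset.disjoint_singleton_left, Finset.mem_union, mem_inc, mem_prs]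
        intro h
        rcases h with (h | h) | h
        · exact hab h.1.symm
        · exact hb h.2
        · exact hb h.1
      have hbU : {s(b, z)} ⊆ U := by
        rw [Finset.singleton_subset_iff]
        exact hUb (Finset.mem_union_left _ (mem_inc_self hz))
      rw [Pr_and_indep hdisj (Finset.union_subset hbU hUa) (fun E => {s(b, z)} ⊆ E)
        (fun E => s(a, z) ∈ E ∧ z ∉ Cc E K a)
        (by
          intro E _
          constructor
          · intro h; exact Finset.subset_inter h (Finset.Subset.refl _)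
          · intro h; exact h.trans Finset.inter_subset_left)
        (by
          intro E _
          have e1 : nbr (E ∩ (inc a K ∪ prs K)) K a = nbr E K a :=
            nbr_inter Finset.subset_union_left
          have e2 : E ∩ (inc a K ∪ prs K) ∩ prs K = E ∩ prs K := by
            rw [Finset.inter_assoc, Finset.inter_eq_right.mpr Finset.subset_union_right]
          unfold Cc
          rw [e1, e2]
          apply and_congr_left
          intro _
          rw [Finset.mem_inter]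
          exact ⟨fun h => ⟨h, Finset.mem_union_left _ (mem_inc_self hz)⟩, fun h => h.1⟩),
        Pr_subset (Finset.Subset.refl _), Finset.card_singleton, pow_one]
      apply mul_le_mul_of_nonneg_left _ h0.le
      exact Pr_Cc_miss' h0 hq K a z ha hz (Finset.Subset.refl _) hK
    calc ∑ z ∈ K, Pr U q (fun E => {s(b, z)} ⊆ E ∧ (s(a, z) ∈ E ∧ z ∉ Cc E K a))
        ≤ ∑ z ∈ K, q * (q * (3 * (1/2) ^ 23)) := Finset.sum_le_sum hterm
      _ = (q ^ 2 * K.card) * (3 * (1/2) ^ 23) := by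
          rw [Finset.sum_const, nsmul_eq_mul]; ring
      _ = 64 * (3 * (1/2) ^ 23) := by rw [hK]
  have t2 := (Pr_or_le h0.le h1
    (fun E => ∃ z ∈ K, {s(y, z)} ⊆ E ∧ (s(x, z) ∈ E ∧ z ∉ Cc E K x))
    (fun E => ∃ z ∈ K, {s(x, z)} ⊆ E ∧ (s(y, z) ∈ E ∧ z ∉ Cc E K y))
    (U := U))
  have t3 := key x y hx hy hxy hUx hUy
  have t4 := key y x hy hx hxy.symm hUy hUx
  have : (1/2 : ℝ) ^ 64 + (64 * (3 * (1/2) ^ 23) + 64 * (3 * (1/2) ^ 23)) ≤ (1/2) ^ 13 := by
    norm_num
  linarith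

/-- the pairs revealed first -/
noncomputable def Ub (K L : Finset ℕ) : Finset (Sym2 ℕ) := prs K ∪ L.biUnion (fun v => inc v K)

theorem inc_prs_subset_Ub {K L : Finset ℕ} {v : ℕ} (hv : v ∈ L) : inc v K ∪ prs K ⊆ Ub K L := by
  apply Finset.union_subset
  · exact (Finset.subset_biUnion_of_mem (fun v => inc v K) hv).trans Finset.subset_union_right
  · exact Finset.subset_union_left

/-- vertices of `L` whose cluster misses that of `x` -/
noncomputable def Bd (C : ℕ → Finset ℕ) (L : Finset ℕ) (x : ℕ) : Finset ℕ :=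
  L.filter (fun y => y ≠ x ∧ Disjoint (C x) (C y))

/-- the typical event for clusters -/
structure Typ (C : ℕ → Finset ℕ) (L : Finset ℕ) (u' : ℕ) (σ : ℝ) : Prop where
  t1 : ∀ v ∈ L, σ < (C v).card
  t2 : 2 * (L.filter (fun x => L.card ≤ 64 * (Bd C L x).card)).card ≤ L.card
  t3 : 64 * (Bd C L u').card < L.card

theorem Pr_Typ {q : ℝ} (h0 : 0 < q) (hq : q ≤ 1 / 3) (K L : Finset ℕ) (u' : ℕ) (hu' : u' ∈ L)
    (hd : Disjoint L K) (hK : q ^ 2 * K.card = 64) (hL : (L.card:ℝ) * Real.exp (-(8 / q)) ≤ 1 / 8) :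
    1 / 2 ≤ Pr (Ub K L) q (fun E => Typ (Cc E K) L u' (q * K.card / 4)) := by
  have h1 : q ≤ 1 := by linarith
  have hLne : L.Nonempty := ⟨u', hu'⟩
  have hvK : ∀ v ∈ L, v ∉ K := fun v hv => Finset.disjoint_left.mp hd hv
  have hpair : ∀ x ∈ L, ∀ y ∈ L,
      Pr (Ub K L) q (fun E => y ≠ x ∧ Disjoint (Cc E K x) (Cc E K y)) ≤ (1/2) ^ 13 := by
    intro x hx y hy
    by_cases hxy : y = x
    · subst hxy
      simp only [ne_eq, not_true_eq_false, false_and]
      rw [Pr_false]
      norm_num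
    · refine le_trans (Pr_mono h0.le h1 (fun E _ h => h.2)) ?_
      exact Pr_Cc_disj h0 hq K x y (hvK x hx) (hvK y hy) (Ne.symm hxy)
        (inc_prs_subset_Ub hx) (inc_prs_subset_Ub hy) hK
  have hbad : ∀ x ∈ L, Pr (Ub K L) q (fun E => L.card ≤ 64 * (Bd (Cc E K) L x).card)
      ≤ 64 * (1/2) ^ 13 := by
    intro x hx
    have h2 := Pr_many h0.le h1 L hLne (fun y E => y ≠ x ∧ Disjoint (Cc E K x) (Cc E K y))
      (U := Ub K L) (p := (1/2) ^ 13) (c := 1/64) (by norm_num) (hpair x hx)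
    refine le_trans (Pr_mono h0.le h1 ?_) (h2.trans (by norm_num))
    intro E _ h
    have h' : (L.card:ℝ) ≤ 64 * (Bd (Cc E K) L x).card := by exact_mod_cast h
    have h3 : (1/64:ℝ) * L.card ≤ (Bd (Cc E K) L x).card := by linarith
    unfold Bd at h3
    convert h3
  have hmany : Pr (Ub K L) q (fun E =>
      ¬ 2 * (L.filter (fun x => L.card ≤ 64 * (Bd (Cc E K) L x).card)).card ≤ L.card)
      ≤ 128 * (1/2) ^ 13 := by
    have h2 := Pr_many h0.le h1 L hLne (fun x E => L.card ≤ 64 * (Bd (Cc E K) L x).card)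
      (U := Ub K L) (p := 64 * (1/2) ^ 13) (c := 1/2) (by norm_num) hbad
    refine le_trans (Pr_mono h0.le h1 ?_) (h2.trans (by norm_num))
    intro E _ h
    push Not at h
    have h' : (L.card:ℝ) < 2 * (L.filter (fun x => L.card ≤ 64 * (Bd (Cc E K) L x).card)).card := by
      exact_mod_cast h
    have h3 : (1/2:ℝ) * L.card ≤ (L.filter (fun x => L.card ≤ 64 * (Bd (Cc E K) L x).card)).card := by
      linarith
    convert h3
  have hlast : Pr (Ub K L) q (fun E => ¬ 64 * (Bd (Cc E K) L u').card < L.card)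
      ≤ 64 * (1/2) ^ 13 := by
    refine le_trans (Pr_mono h0.le h1 ?_) (hbad u' hu')
    intro E _ h
    push Not at h
    exact h
  have hsmall : Pr (Ub K L) q (fun E => ∃ v ∈ L, ((Cc E K v).card : ℝ) ≤ q * K.card / 4)
      ≤ 1 / 4 := by
    refine (Pr_exists_le h0.le h1 _ _).trans ?_
    have hterm : ∀ v ∈ L, Pr (Ub K L) q (fun E => ((Cc E K v).card : ℝ) ≤ q * K.card / 4)
        ≤ 2 * Real.exp (-(8 / q)) := by
      intro v hv
      refine (Pr_Cc_small h0 h1 K v (hvK v hv) (inc_prs_subset_Ub hv) (by linarith)).trans ?_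
      have : q * K.card / 8 = 8 / q := by
        field_simp
        linarith
      rw [this]
    calc ∑ v ∈ L, Pr (Ub K L) q (fun E => ((Cc E K v).card : ℝ) ≤ q * K.card / 4)
        ≤ ∑ v ∈ L, 2 * Real.exp (-(8 / q)) := Finset.sum_le_sum hterm
      _ = 2 * (L.card * Real.exp (-(8 / q))) := by
          rw [Finset.sum_const, nsmul_eq_mul]; ring
      _ ≤ 1 / 4 := by linarith
  have hfail : Pr (Ub K L) q (fun E => ¬ Typ (Cc E K) L u' (q * K.card / 4))
      ≤ 1 / 4 + (128 * (1/2) ^ 13 + 64 * (1/2) ^ 13) := by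
    have hstep : Pr (Ub K L) q (fun E => ¬ Typ (Cc E K) L u' (q * K.card / 4))
        ≤ Pr (Ub K L) q (fun E => (∃ v ∈ L, ((Cc E K v).card : ℝ) ≤ q * K.card / 4) ∨
          (¬ 2 * (L.filter (fun x => L.card ≤ 64 * (Bd (Cc E K) L x).card)).card ≤ L.card ∨
          ¬ 64 * (Bd (Cc E K) L u').card < L.card)) := by
      apply Pr_mono h0.le h1
      intro E _ h
      by_contra hcon
      apply h
      rw [not_or, not_or, not_not, not_not] at hcon
      obtain ⟨hc1, hc2, hc3⟩ := hcon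
      push Not at hc1
      exact ⟨hc1, hc2, hc3⟩
    refine hstep.trans ((Pr_or_le h0.le h1 _ _).trans ?_)
    apply add_le_add hsmall
    refine (Pr_or_le h0.le h1 _ _).trans ?_
    exact add_le_add hmany hlast
  rw [Pr_not] at hfail
  have : (1:ℝ) / 4 + (128 * (1/2) ^ 13 + 64 * (1/2) ^ 13) ≤ 1 / 2 := by norm_num
  linarith

end Pool.Agent.Helper96
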